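import Pool.Agent.Lib.MP_4e5fcd_ag.HC.Ch

/-!
# HC-Pol: the Euler characteristics of nonsingular complete intersections

`P N δ` is the Euler characteristic of the nonsingular complete intersections of degrees `δ` in
`P^(N-1)`, by recursion: cyclic coverings of the hyperplane sections.
-/

open MvPolynomial

namespace MotMono
namespace HC

open LF HZ

/-- the Euler characteristic of a nonsingular complete intersection of degrees `δ` in `P^(N-1)` -/
def P : ℕ → List ℕ → ℤ
  | 0, _ => 0
  | N + 1, [] => N + 1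
  | N + 1, e :: δ => e * P N δ - (e - 1) * P N (e :: δ)

theorem flag_ns {N c : ℕ} {F : Fin c → MvPolynomial (Fin N) ℂ} (hF : Flag F) : NS F := by
  cases c with
  | zero =>
    intro x _ _ μ _
    funext j
    exact j.elim0
  | succ c => exact hF.1

theorem chi_PV {χ : K0 →+* ℤ} (hχ : IsEulerCharC χ) : ∀ (N : ℕ) {c : ℕ}
    (F : Fin c → MvPolynomial (Fin N) ℂ) (δ : Fin c → ℕ), (∀ j, 0 < δ j) →
    (∀ j, (F j).IsHomogeneous (δ j)) → Flag F → χ (cls (PV F)) = P N (List.ofFn δ)
  | 0, c, F, δ, _, _, _ => by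
    have e : PV F = ∅ := by
      ext x
      simp only [PV, Set.mem_ofPred_eq, Set.mem_empty_iff_false, iff_false, not_and]
      rintro ⟨i, -⟩
      exact i.elim0
    rw [e, cls_empty, map_zero]
    simp [P]
  | N + 1, 0, F, δ, _, _, _ => by
    rw [chi_PV_nil hχ.toIsEulerCharF]
    simp [P]
  | N + 1, c + 1, F, δ, hδ, hF, hfl => by
    obtain ⟨h, hh⟩ := exists_hyp F
    have hG : Flag fun j => sub h (F j) := flag_sub hfl hh
    have hGh : ∀ j, (sub h (F j)).IsHomogeneous (δ j) := fun j => homog_sub h (hF j)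
    have h1 : χ (cls (PV F)) = χ (cls (PV (cyc (δ 0) fun j => sub h (F j)))) :=
      hχ.ci _ _ δ _ _ hδ hF (fun j => homog_cyc hGh j) hfl.1
        (ns_cyc hδ hGh hG.1 (flag_ns hG.2))
    have h2 := chi_cyc hχ.toIsEulerCharF (hδ 0) (fun j => sub h (F j))
      (eval_zero_homog (hδ 0) (hGh 0) rfl)
    have h3 := chi_PV hχ N (fun j => sub h (F j)) δ hδ hGh hG
    have h4 := chi_PV hχ N (Fin.tail fun j => sub h (F j)) (Fin.tail δ) (fun j => hδ j.succ)
      (fun j => hGh j.succ) hG.2
    rw [h1, h2, h3, h4, List.ofFn_succ]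
    rfl

/-! ### The signs -/

/-- the difference in the number of variables -/
def Q (N : ℕ) (δ : List ℕ) : ℤ := P (N + 1) δ - P N δ

theorem Q_nil (N : ℕ) : Q N [] = 1 := by
  unfold Q
  cases N with
  | zero => simp [P]
  | succ N => simp [P]

theorem Q_zero_cons (e : ℕ) (δ : List ℕ) : Q 0 (e :: δ) = 0 := by
  unfold Q
  simp [P]

theorem Q_cons (N e : ℕ) (δ : List ℕ) : Q N (e :: δ) = e * (P N δ - P N (e :: δ)) := by
  unfold Q
  show (e * P N δ - (e - 1) * P N (e :: δ) : ℤ) - P N (e :: δ) = _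
  ring

theorem Q_succ (N e : ℕ) (δ : List ℕ) :
    Q (N + 1) (e :: δ) = e * Q N δ - (e - 1) * Q N (e :: δ) := by
  rw [Q_cons (N + 1), Q_cons N]
  have h1 : P (N + 1) (e :: δ) = e * P N δ - (e - 1) * P N (e :: δ) := rfl
  rw [h1]
  unfold Q
  ring

theorem Q_eq_zero : ∀ (N : ℕ) (δ : List ℕ), N < δ.length → Q N δ = 0
  | _, [], h => absurd h (Nat.not_lt_zero _)
  | 0, e :: δ, _ => Q_zero_cons e δ
  | N + 1, e :: δ, h => by
    rw [Q_succ, Q_eq_zero N δ (by rw [List.length_cons] at h; omega),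
      Q_eq_zero N (e :: δ) (by rw [List.length_cons] at *; omega)]
    ring

/-- the sum of the numbers `e - 1` -/
def sg (δ : List ℕ) : ℤ := (δ.sum : ℤ) - δ.length

theorem sg_cons (e : ℕ) (δ : List ℕ) : sg (e :: δ) = e - 1 + sg δ := by
  unfold sg
  rw [List.sum_cons, List.length_cons]
  push_cast
  ring

theorem sg_nonneg : ∀ δ : List ℕ, (∀ a ∈ δ, 1 ≤ a) → 0 ≤ sg δ
  | [], _ => by simp [sg]
  | e :: δ, h => by
    rw [sg_cons]
    have h1 := sg_nonneg δ fun a ha => h a (List.mem_cons_of_mem e ha)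
    have h2 : (1 : ℤ) ≤ e := by exact_mod_cast h e List.mem_cons_self
    linarith

theorem prod_pos' : ∀ δ : List ℕ, (∀ a ∈ δ, 1 ≤ a) → (1 : ℤ) ≤ (δ.prod : ℕ)
  | [], _ => by simp
  | e :: δ, h => by
    rw [List.prod_cons]
    push_cast
    have h1 := prod_pos' δ fun a ha => h a (List.mem_cons_of_mem e ha)
    have h2 : (1 : ℤ) ≤ e := by exact_mod_cast h e List.mem_cons_self
    push_cast at h1
    nlinarith

theorem Q_sign : ∀ (N : ℕ) (δ : List ℕ), (∀ a ∈ δ, 1 ≤ a) → δ.length ≤ N →
    (Even (N - δ.length) → ((δ.prod : ℕ) : ℤ) ≤ Q N δ) ∧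
    (¬ Even (N - δ.length) → Q N δ ≤ ((δ.prod : ℕ) : ℤ) * (1 - sg δ))
  | N, [], _, _ => by
    rw [Q_nil]
    simp [sg]
  | 0, e :: δ, _, h => by
    rw [List.length_cons] at h
    omega
  | N + 1, e :: δ, h, hlen => by
    have hδ : ∀ a ∈ δ, 1 ≤ a := fun a ha => h a (List.mem_cons_of_mem e ha)
    have he : (1 : ℤ) ≤ e := by exact_mod_cast h e List.mem_cons_self
    have hp := prod_pos' δ hδ
    have hs := sg_nonneg δ hδ
    rw [List.length_cons] at hlen
    have ih1 := Q_sign N δ hδ (by omega)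
    have hlen' : N + 1 - (e :: δ).length = N - δ.length := by
      rw [List.length_cons]
      omega
    rw [hlen', Q_succ, List.prod_cons, sg_cons, Nat.cast_mul]
    by_cases h0 : δ.length = N
    · have h1 : Q N (e :: δ) = 0 := Q_eq_zero N _ (by rw [List.length_cons]; omega)
      have h2 : Even (N - δ.length) := by
        rw [h0, Nat.sub_self]
        exact Even.zero
      refine ⟨fun _ => ?_, fun h3 => absurd h2 h3⟩
      have h3 := ih1.1 h2
      rw [h1]
      nlinarith
    · have ih2 := Q_sign N (e :: δ) h (by rw [List.length_cons]; omega)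
      rw [List.prod_cons, sg_cons, Nat.cast_mul] at ih2
      have hpar : Even (N - (e :: δ).length) ↔ ¬ Even (N - δ.length) := by
        rw [List.length_cons]
        have h1 : N - δ.length = (N - (δ.length + 1)) + 1 := by omega
        rw [h1, Nat.even_add_one, not_not]
      generalize ((δ.prod : ℕ) : ℤ) = p at *
      refine ⟨fun h1 => ?_, fun h1 => ?_⟩
      · have h2 := ih1.1 h1
        have h3 := ih2.2 (fun h4 => hpar.1 h4 h1)
        have h5 : ((e : ℤ) - 1) * Q N (e :: δ) ≤ 0 := by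
          rcases eq_or_lt_of_le he with h5 | h5
          · rw [← h5, sub_self, zero_mul]
          · have h6 : (1 : ℤ) - (e - 1 + sg δ) ≤ 0 := by linarith
            have h7 : (0 : ℤ) ≤ e * p := by positivity
            have h8 : Q N (e :: δ) ≤ 0 := h3.trans (mul_nonpos_of_nonneg_of_nonpos h7 h6)
            exact mul_nonpos_of_nonneg_of_nonpos (by linarith) h8
        have h6 : (e : ℤ) * p ≤ e * Q N δ := mul_le_mul_of_nonneg_left h2 (by linarith)
        linarith
      · have h2 := ih1.2 h1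
        have h3 := ih2.1 (hpar.2 h1)
        have h6 : (e : ℤ) * Q N δ ≤ e * (p * (1 - sg δ)) :=
          mul_le_mul_of_nonneg_left h2 (by linarith)
        have h7 : ((e : ℤ) - 1) * (e * p) ≤ (e - 1) * Q N (e :: δ) :=
          mul_le_mul_of_nonneg_left h3 (by linarith)
        nlinarith

/-- non-vanishing, unless one degree is `2`, all others are `1` and `N` and the number of the
degrees have different parities -/
theorem Q_ne_zero {N e : ℕ} {δ : List ℕ} (h : ∀ a ∈ δ, 1 ≤ a) (he : 2 ≤ e)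
    (hlen : δ.length + 1 ≤ N) (hQ : Q N (e :: δ) = 0) :
    e = 2 ∧ (∀ a ∈ δ, a = 1) ∧ Even (N - δ.length) := by
  have h' : ∀ a ∈ e :: δ, 1 ≤ a := by
    intro a ha
    rcases List.mem_cons.1 ha with h1 | h1
    · omega
    · exact h a h1
  have h1 := Q_sign N (e :: δ) h' (by rw [List.length_cons]; omega)
  have hp := prod_pos' _ h'
  have hs := sg_nonneg δ h
  rw [hQ] at h1
  have h2 : ¬ Even (N - (e :: δ).length) := by
    intro h3
    have h4 := h1.1 h3
    omega
  have h3 := h1.2 h2
  rw [sg_cons] at h3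
  have he' : (2 : ℤ) ≤ e := by exact_mod_cast he
  have h4 : (0 : ℤ) ≤ 1 - (e - 1 + sg δ) := by
    by_contra h5
    push Not at h5
    have h6 := mul_neg_of_pos_of_neg (by linarith : (0 : ℤ) < (((e :: δ).prod : ℕ) : ℤ)) h5
    linarith
  have h5 : (e : ℤ) = 2 := by linarith
  have h6 : sg δ = 0 := by linarith
  refine ⟨by exact_mod_cast h5, ?_, ?_⟩
  · have h7 : ∀ δ : List ℕ, (∀ a ∈ δ, 1 ≤ a) → sg δ = 0 → ∀ a ∈ δ, a = 1 := by
      intro δ
      induction δ with
      | nil => intro _ _ a ha; exact absurd ha List.not_mem_nil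
      | cons b β ih =>
        intro h1 h2 a ha
        rw [sg_cons] at h2
        have h3 := sg_nonneg β fun a ha => h1 a (List.mem_cons_of_mem b ha)
        have h4 : (1 : ℤ) ≤ b := by exact_mod_cast h1 b List.mem_cons_self
        rcases List.mem_cons.1 ha with h5 | h5
        · have h6 : (b : ℤ) = 1 := by linarith
          rw [h5]
          exact_mod_cast h6
        · exact ih (fun a ha => h1 a (List.mem_cons_of_mem b ha)) (by linarith) a h5
    exact h7 δ h h6
  · rw [List.length_cons] at h2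
    have h7 : N - δ.length = (N - (δ.length + 1)) + 1 := by omega
    rw [h7, Nat.even_add_one]
    exact h2

end HC
end MotMono
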