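import Pool.Agent.Lib.MP_4e5fcd_ag.HC.Ns
import Pool.Agent.Lib.MP_4e5fcd_ag.SW.N2

/-!
# HC-Bert: generic combinations of forms of the same degree

Let the degrees `d` be monotone, and let the gradients of the `F j` with `d j ≤ e` be linearly
independent at their common zeros `x ≠ 0`, for all `e`. Let
`Φ i = F i + ∑_{l > i, d l = d i} B i l F l` with generic `B`. Then all `Φ 0, …, Φ (m - 1)` define
nonsingular complete intersections.
-/

open MvPolynomial

namespace MotMono
namespace HC

open WH

variable {N r : ℕ}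

/-- strictly triangular, and only equal degrees are combined -/
def Tri (d : Fin r → ℕ) (B : Fin r → Fin r → ℂ) : Prop :=
  ∀ i l, B i l ≠ 0 → i < l ∧ d l = d i

/-- back substitution -/
theorem tri_zero {d : Fin r → ℕ} {B : Fin r → Fin r → ℂ} (hB : Tri d B) (u : Fin r → ℂ) (a : ℕ)
    (h : ∀ i, d i = a → u i + ∑ l, B i l * u l = 0) (i : Fin r) : d i = a → u i = 0 := by
  refine WellFoundedGT.induction (motive := fun i => d i = a → u i = 0) i fun i ih hi => ?_
  have h1 := h i hi
  rw [Finset.sum_eq_zero, add_zero] at h1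
  · exact h1
  · intro l _
    by_cases hl : B i l = 0
    · rw [hl, zero_mul]
    · obtain ⟨h2, h3⟩ := hB i l hl
      rw [ih l h2 (h3.trans hi), mul_zero]

/-- forward substitution -/
theorem tri_zero' {d : Fin r → ℕ} {B : Fin r → Fin r → ℂ} (hB : Tri d B) (μ : Fin r → ℂ) (a : ℕ)
    (h : ∀ l, d l ≤ a → μ l + ∑ i, μ i * B i l = 0) (l : Fin r) : d l ≤ a → μ l = 0 := by
  refine WellFoundedLT.induction (motive := fun l => d l ≤ a → μ l = 0) l fun l ih hl => ?_
  have h1 := h l hl
  rw [Finset.sum_eq_zero, add_zero] at h1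
  · exact h1
  · intro i _
    by_cases hi : B i l = 0
    · rw [hi, mul_zero]
    · obtain ⟨h2, h3⟩ := hB i l hi
      rw [ih i h2 (h3 ▸ hl), zero_mul]

/-- the combinations -/
noncomputable def Phi (F : Fin r → MvPolynomial (Fin N) ℂ) (B : Fin r → Fin r → ℂ) (i : Fin r) :
    MvPolynomial (Fin N) ℂ :=
  F i + ∑ l, C (B i l) * F l

theorem eval_Phi (F : Fin r → MvPolynomial (Fin N) ℂ) (B : Fin r → Fin r → ℂ) (i : Fin r)
    (x : Fin N → ℂ) : eval x (Phi F B i) = eval x (F i) + ∑ l, B i l * eval x (F l) := by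
  unfold Phi
  rw [map_add, map_sum]
  simp only [map_mul, eval_C]

theorem pderiv_Phi (F : Fin r → MvPolynomial (Fin N) ℂ) (B : Fin r → Fin r → ℂ) (i : Fin r)
    (x : Fin N → ℂ) (s : Fin N) : eval x (pderiv s (Phi F B i)) =
      eval x (pderiv s (F i)) + ∑ l, B i l * eval x (pderiv s (F l)) := by
  unfold Phi
  rw [map_add, map_add, map_sum, map_sum]
  congr 1
  refine Finset.sum_congr rfl fun l _ => ?_
  rw [pderiv_mul, pderiv_C, zero_mul, zero_add, map_mul, eval_C]

theorem homog_Phi {d : Fin r → ℕ} {F : Fin r → MvPolynomial (Fin N) ℂ}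
    {B : Fin r → Fin r → ℂ} (hF : ∀ j, (F j).IsHomogeneous (d j)) (hB : Tri d B) (i : Fin r) :
    (Phi F B i).IsHomogeneous (d i) := by
  refine (hF i).add (IsHomogeneous.sum _ _ _ fun l _ => ?_)
  by_cases hl : B i l = 0
  · rw [hl, map_zero, zero_mul]
    exact isHomogeneous_zero _ _ _
  · have h1 := (isHomogeneous_C (Fin N) (B i l)).mul (hF l)
    rw [zero_add, (hB i l hl).2] at h1
    exact h1

/-- linear independence of the gradients of the `F j` implies that of the combinations -/
theorem ber_fin {d : Fin r → ℕ} {F : Fin r → MvPolynomial (Fin N) ℂ} {B : Fin r → Fin r → ℂ}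
    (hF : CInt d F) (hB : Tri d B) {x : Fin N → ℂ} (hx : x ≠ 0) {a : ℕ}
    (hz : ∀ l, d l ≤ a → eval x (F l) = 0) {μ : Fin r → ℂ} (hμa : ∀ i, a < d i → μ i = 0)
    (hμ : ∀ s, ∑ i, μ i * eval x (pderiv s (Phi F B i)) = 0) : μ = 0 := by
  classical
  have h1 := Fintype.linearIndependent_iff.1 (hF x hx a hz)
    (fun l => μ l + ∑ i, μ i * B i l) (by
      funext s
      rw [Finset.sum_apply, Pi.zero_apply, ← hμ s]
      have h2 : ∀ i, μ i * eval x (pderiv s (Phi F B i)) =
          μ i * eval x (pderiv s (F i)) + ∑ l, μ i * B i l * eval x (pderiv s (F l)) := by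
        intro i
        rw [pderiv_Phi, mul_add, Finset.mul_sum]
        congr 1
        exact Finset.sum_congr rfl fun l _ => by ring
      rw [Finset.sum_congr rfl fun i _ => h2 i, Finset.sum_add_distrib, Finset.sum_comm,
        ← Finset.sum_add_distrib]
      have h3 : ∀ l, μ l * eval x (pderiv s (F l)) + ∑ i, μ i * B i l * eval x (pderiv s (F l)) =
          (μ l + ∑ i, μ i * B i l) * eval x (pderiv s (F l)) := by
        intro l
        rw [add_mul, Finset.sum_mul]
      rw [Finset.sum_congr rfl fun l _ => h3 l]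
      have h4 : ∑ l : Fin r, (μ l + ∑ i, μ i * B i l) * eval x (pderiv s (F l)) =
          ∑ l ∈ Finset.univ.filter (fun l => d l ≤ a),
            (μ l + ∑ i, μ i * B i l) * eval x (pderiv s (F l)) := by
        symm
        refine Finset.sum_filter_of_ne fun l _ hl => ?_
        by_contra h5
        push Not at h5
        apply hl
        rw [hμa l h5, zero_add, Finset.sum_eq_zero, zero_mul]
        intro i _
        by_cases hi : B i l = 0
        · rw [hi, mul_zero]
        · rw [hμa i ((hB i l hi).2 ▸ h5), zero_mul]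
      rw [h4]
      exact (Finset.sum_subtype (p := fun l => d l ≤ a) (Finset.univ.filter (fun l => d l ≤ a))
        (fun l => by simp)
        (fun l => (μ l + ∑ i, μ i * B i l) * eval x (pderiv s (F l)))).symm)
  funext l
  by_cases hl : d l ≤ a
  · exact tri_zero' hB μ a (fun l hl => h1 ⟨l, hl⟩) l hl
  · exact hμa l (not_le.1 hl)

/-- Bertini's theorem for generic combinations of forms of the same degree -/
theorem ber {d : Fin r → ℕ} {F : Fin r → MvPolynomial (Fin N) ℂ} {B : Fin r → Fin r → ℂ}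
    (hd : Monotone d) (hd0 : ∀ j, 0 < d j) (hF : CInt d F) (hB : Tri d B)
    (hA : ∀ i l, i < l → d l = d i → ∃ D : Derivation ℤ ℂ ℂ, (∀ j m, D (coeff m (F j)) = 0) ∧
      ∀ i' l', D (B i' l') = if i' = i ∧ l' = l then 1 else 0)
    (m : ℕ) {x : Fin N → ℂ} (hx : x ≠ 0)
    (hz : ∀ i : Fin r, (i : ℕ) < m → eval x (Phi F B i) = 0) {μ : Fin r → ℂ}
    (hμ0 : ∀ i : Fin r, m ≤ (i : ℕ) → μ i = 0)
    (hμ : ∀ s, ∑ i, μ i * eval x (pderiv s (Phi F B i)) = 0) : μ = 0 := by
  classical
  by_cases hne : ∃ i : Fin r, (i : ℕ) < m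
  swap
  · push Not at hne
    funext i
    exact hμ0 i (hne i)
  obtain ⟨i0, hi0, hmax⟩ : ∃ i0 : Fin r, (i0 : ℕ) < m ∧ ∀ i : Fin r, (i : ℕ) < m → i ≤ i0 := by
    obtain ⟨i, hi⟩ := hne
    have hir := i.isLt
    refine ⟨⟨min (m - 1) (r - 1), by omega⟩, ?_, fun j hj => ?_⟩
    · show min (m - 1) (r - 1) < m
      omega
    · rw [Fin.le_def]
      show (j : ℕ) ≤ min (m - 1) (r - 1)
      have := j.isLt
      omega
  have h1 : ∀ i, d i < d i0 → (i : ℕ) < m := by
    intro i hi
    have h2 : i < i0 := by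
      by_contra h3
      exact absurd (hd (not_lt.1 h3)) (not_le.2 hi)
    exact lt_trans h2 hi0
  have h3 : ∀ i, d i < d i0 → eval x (F i) = 0 := by
    intro i hi
    refine tri_zero hB (fun l => eval x (F l)) (d i) (fun l hl => ?_) i rfl
    rw [← eval_Phi]
    exact hz l (h1 l (hl ▸ hi))
  by_cases hcase : ∀ l, d l = d i0 → eval x (F l) = 0
  · refine ber_fin hF hB hx (a := d i0) (fun l hl => ?_) (fun i hi => ?_) hμ
    · rcases lt_or_eq_of_le hl with h4 | h4
      · exact h3 l h4
      · exact hcase l h4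
    · refine hμ0 i ?_
      by_contra h4
      push Not at h4
      exact absurd (hd (hmax i h4)) (not_le.2 hi)
  · push Not at hcase
    obtain ⟨l0, hl0, hl0'⟩ := hcase
    have h4 : ∀ i, d i = d i0 → μ i = 0 := by
      intro i hi
      by_cases him : (i : ℕ) < m
      swap
      · exact hμ0 i (not_lt.1 him)
      have h5 : ∃ l, i < l ∧ d l = d i0 ∧ eval x (F l) ≠ 0 := by
        by_contra h6
        push Not at h6
        apply hl0'
        refine tri_zero hB (fun l => eval x (F l)) (d i0) (fun l hl => ?_) l0 hl0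
        rcases lt_or_ge i l with h7 | h7
        · show eval x (F l) + _ = 0
          rw [h6 l h7 hl, Finset.sum_eq_zero, add_zero]
          intro k _
          by_cases hk : B l k = 0
          · rw [hk, zero_mul]
          · obtain ⟨h8, h9⟩ := hB l k hk
            show B l k * eval x (F k) = 0
            rw [h6 k (h7.trans h8) (h9.trans hl), mul_zero]
        · rw [← eval_Phi]
          exact hz l (lt_of_le_of_lt h7 him)
      obtain ⟨l, hl, hdl, hFl⟩ := h5
      obtain ⟨D, hD1, hD2⟩ := hA i l hl (hdl.trans hi.symm)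
      have h6 : ∀ j, ∑ s, eval x (pderiv s (Phi F B j)) * D (x s) +
          (if j = i then eval x (F l) else 0) = D (eval x (Phi F B j)) := by
        intro j
        rw [eval_Phi, D.map_add, map_sum, der_eval D (F j) (hD1 j)]
        have h7 : ∀ k, D (B j k * eval x (F k)) =
            B j k * (∑ s, eval x (pderiv s (F k)) * D (x s)) +
              (if j = i ∧ k = l then eval x (F k) else 0) := by
          intro k
          rw [D.leibniz, hD2, der_eval D (F k) (hD1 k), smul_eq_mul, smul_eq_mul, mul_ite, mul_one,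
            mul_zero]
        rw [Finset.sum_congr rfl fun k _ => h7 k, Finset.sum_add_distrib]
        have h8 : ∑ k, (if j = i ∧ k = l then eval x (F k) else 0) =
            if j = i then eval x (F l) else 0 := by
          by_cases hj : j = i
          · simp only [hj, true_and, if_true]
            rw [Finset.sum_ite_eq' Finset.univ l, if_pos (Finset.mem_univ l)]
          · simp only [hj, false_and, if_false, Finset.sum_const_zero]
        have h9 : ∑ s, eval x (pderiv s (Phi F B j)) * D (x s) =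
            ∑ s, eval x (pderiv s (F j)) * D (x s) +
              ∑ k, B j k * ∑ s, eval x (pderiv s (F k)) * D (x s) := by
          have h10 : ∀ s, eval x (pderiv s (Phi F B j)) * D (x s) =
              eval x (pderiv s (F j)) * D (x s) +
                ∑ k, B j k * (eval x (pderiv s (F k)) * D (x s)) := by
            intro s
            rw [pderiv_Phi, add_mul, Finset.sum_mul]
            congr 1
            exact Finset.sum_congr rfl fun k _ => by ring
          rw [Finset.sum_congr rfl fun s _ => h10 s, Finset.sum_add_distrib, Finset.sum_comm]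
          congr 1
          exact Finset.sum_congr rfl fun k _ => by rw [Finset.mul_sum]
        rw [h8, h9]
        ring
      have h11 : ∑ j, μ j * (∑ s, eval x (pderiv s (Phi F B j)) * D (x s) +
          (if j = i then eval x (F l) else 0)) = 0 := by
        refine Finset.sum_eq_zero fun j _ => ?_
        by_cases hj : (j : ℕ) < m
        · rw [h6, hz j hj, D.map_zero, mul_zero]
        · rw [hμ0 j (not_lt.1 hj), zero_mul]
      simp only [mul_add] at h11
      rw [Finset.sum_add_distrib] at h11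
      have h12 : ∑ j, μ j * ∑ s, eval x (pderiv s (Phi F B j)) * D (x s) = 0 := by
        simp only [Finset.mul_sum]
        rw [Finset.sum_comm]
        refine Finset.sum_eq_zero fun s _ => ?_
        have h13 := hμ s
        have h14 : ∑ j, μ j * (eval x (pderiv s (Phi F B j)) * D (x s)) =
            (∑ j, μ j * eval x (pderiv s (Phi F B j))) * D (x s) := by
          rw [Finset.sum_mul]
          exact Finset.sum_congr rfl fun j _ => by ring
        rw [h14, h13, zero_mul]
      rw [h12, zero_add] at h11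
      simp only [mul_ite, mul_zero] at h11
      rw [Finset.sum_ite_eq' Finset.univ i, if_pos (Finset.mem_univ i)] at h11
      exact (mul_eq_zero.1 h11).resolve_right hFl
    refine ber_fin hF hB hx (a := d i0 - 1) (fun l hl => ?_) (fun i hi => ?_) hμ
    · exact h3 l (by have := hd0 i0; omega)
    · rcases lt_trichotomy (d i) (d i0) with h5 | h5 | h5
      · omega
      · exact h4 i h5
      · refine hμ0 i ?_
        by_contra h6
        push Not at h6
        exact absurd (hd (hmax i h6)) (not_le.2 h5)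

/-! ### The families -/

/-- the combinations `Φ (m - 1), …, Φ 0` -/
noncomputable def fam (F : Fin r → MvPolynomial (Fin N) ℂ) (B : Fin r → Fin r → ℂ) {m : ℕ}
    (hm : m ≤ r) : Fin m → MvPolynomial (Fin N) ℂ :=
  fun i => Phi F B (Fin.castLE hm i.rev)

/-- their degrees -/
def fdeg (d : Fin r → ℕ) {m : ℕ} (hm : m ≤ r) : Fin m → ℕ :=
  fun i => d (Fin.castLE hm i.rev)

theorem fam_tail (F : Fin r → MvPolynomial (Fin N) ℂ) (B : Fin r → Fin r → ℂ) {m : ℕ}
    (hm : m + 1 ≤ r) : Fin.tail (fam F B hm) = fam F B (Nat.le_of_succ_le hm) := by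
  funext i
  unfold Fin.tail fam
  congr 1
  rw [Fin.rev_succ]
  rfl

theorem fdeg_tail (d : Fin r → ℕ) {m : ℕ} (hm : m + 1 ≤ r) :
    Fin.tail (fdeg d hm) = fdeg d (Nat.le_of_succ_le hm) := by
  funext i
  unfold Fin.tail fdeg
  congr 1
  rw [Fin.rev_succ]
  rfl

theorem ns_fam {d : Fin r → ℕ} {F : Fin r → MvPolynomial (Fin N) ℂ} {B : Fin r → Fin r → ℂ}
    (hd : Monotone d) (hd0 : ∀ j, 0 < d j) (hF : CInt d F) (hB : Tri d B)
    (hA : ∀ i l, i < l → d l = d i → ∃ D : Derivation ℤ ℂ ℂ, (∀ j m, D (coeff m (F j)) = 0) ∧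
      ∀ i' l', D (B i' l') = if i' = i ∧ l' = l then 1 else 0) {m : ℕ} (hm : m ≤ r) :
    NS (fam F B hm) := by
  classical
  intro x hx hz μ hμ
  set e : Fin m → Fin r := fun j => Fin.castLE hm j.rev with he
  have hinj : Function.Injective e := fun a b h =>
    Fin.rev_injective (Fin.castLE_injective hm h)
  set μ' : Fin r → ℂ := Function.extend e μ 0 with hμ'
  have h1 : ∀ j, μ' (e j) = μ j := fun j => hinj.extend_apply μ 0 j
  have h2 : ∀ i, i ∉ Set.range e → μ' i = 0 := fun i hi => by
    rw [hμ', Function.extend_apply' _ _ _ (fun ⟨a, ha⟩ => hi ⟨a, ha⟩)]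
    rfl
  have h3 := ber hd hd0 hF hB hA m hx (fun i hi => ?_) (μ := μ') (fun i hi => ?_) (fun s => ?_)
  · funext j
    rw [← h1 j, h3]
    rfl
  · have h4 := hz (Fin.rev ⟨i, hi⟩)
    unfold fam at h4
    rw [Fin.rev_rev] at h4
    exact h4
  · refine h2 i ?_
    rintro ⟨j, rfl⟩
    have h4 : ((e j : Fin r) : ℕ) < m := (j.rev).isLt
    omega
  · rw [← hμ s]
    symm
    refine Fintype.sum_of_injective e hinj _ _ (fun i hi => ?_) fun j => ?_
    · rw [h2 i hi, zero_mul]
    · rw [h1]
      rfl

theorem flag_fam {d : Fin r → ℕ} {F : Fin r → MvPolynomial (Fin N) ℂ} {B : Fin r → Fin r → ℂ}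
    (hd : Monotone d) (hd0 : ∀ j, 0 < d j) (hF : CInt d F) (hB : Tri d B)
    (hA : ∀ i l, i < l → d l = d i → ∃ D : Derivation ℤ ℂ ℂ, (∀ j m, D (coeff m (F j)) = 0) ∧
      ∀ i' l', D (B i' l') = if i' = i ∧ l' = l then 1 else 0) : ∀ {m : ℕ} (hm : m ≤ r),
    Flag (fam F B hm)
  | 0, _ => trivial
  | m + 1, hm => by
    refine ⟨ns_fam hd hd0 hF hB hA hm, ?_⟩
    rw [fam_tail]
    exact flag_fam hd hd0 hF hB hA _

/-- generic coefficients exist -/
theorem exists_B (d : Fin r → ℕ) (F : Fin r → MvPolynomial (Fin N) ℂ) :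
    ∃ B : Fin r → Fin r → ℂ, Tri d B ∧
      ∀ i l, i < l → d l = d i → ∃ D : Derivation ℤ ℂ ℂ, (∀ j m, D (coeff m (F j)) = 0) ∧
        ∀ i' l', D (B i' l') = if i' = i ∧ l' = l then 1 else 0 := by
  classical
  obtain ⟨a, ha⟩ := exists_der (Set.range fun p : Fin r × (Fin N →₀ ℕ) => coeff p.2 (F p.1))
    (Set.countable_range _) (Fin r × Fin r)
  refine ⟨fun i l => if i < l ∧ d l = d i then a (i, l) else 0, fun i l h => ?_,
    fun i l hil hdl => ?_⟩
  · by_contra h1
    exact h (if_neg h1)
  · obtain ⟨D, h1, h2⟩ := ha (fun p => if p.1 = i ∧ p.2 = l then 1 else 0)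
    refine ⟨D, fun j m => h1 _ ⟨(j, m), rfl⟩, fun i' l' => ?_⟩
    show D (if i' < l' ∧ d l' = d i' then a (i', l') else 0) = _
    by_cases h3 : i' < l' ∧ d l' = d i'
    · rw [if_pos h3, h2]
    · rw [if_neg h3, D.map_zero, if_neg]
      rintro ⟨rfl, rfl⟩
      exact h3 ⟨hil, hdl⟩

end HC
end MotMono
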