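import Pool.Agent.Lib.MP_4e5fcd_ag.HC.Pol
import Pool.Agent.Lib.MP_4e5fcd_ag.HC.Bert

/-!
# HC-Fib: fibres with non-zero Euler characteristic

Let `e = d j₀` be one of the degrees, and let there be a common zero `c ≠ 0` of the `F j` of degree
`d j < e`. If `e` does not divide `N` minus the sum of the degrees `d j < e`, then one of the fibres
`{F j = 0 (d j < e), F j = y j (d j = e)}`, `y ≠ 0`, has non-zero Euler characteristic.
-/

open MvPolynomial

namespace MotMono
namespace HC

open WH LF HZ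

variable {N r : ℕ}

/-- fewer than `N` of the forms have a common zero `c ≠ 0` -/
theorem card_lt {d : Fin r → ℕ} {F : Fin r → MvPolynomial (Fin N) ℂ}
    (hFh : ∀ j, (F j).IsHomogeneous (d j)) (hF : CInt d F) {c : Fin N → ℂ} (hc : c ≠ 0) {a : ℕ}
    (hz : ∀ j, d j ≤ a → eval c (F j) = 0) :
    (Finset.univ.filter fun j => d j ≤ a).card < N := by
  classical
  have hli := hF c hc a hz
  have h0 := hli.fintype_card_le_finrank
  rw [Module.finrank_fin_fun, Fintype.card_subtype] at h0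
  refine lt_of_le_of_ne h0 fun hN => ?_
  have h1 := hli.span_eq_top_of_card_eq_finrank' (by
    rw [Module.finrank_fin_fun, Fintype.card_subtype, hN])
  set φ : (Fin N → ℂ) →ₗ[ℂ] ℂ := ∑ i, c i • LinearMap.proj i with hφ
  have hφa : ∀ v, φ v = ∑ i, c i * v i := by
    intro v
    rw [hφ, LinearMap.sum_apply]
    rfl
  have h2 : ∀ v ∈ Submodule.span ℂ (Set.range fun j : {j // d j ≤ a} => grad (F j) c), φ v = 0 := by
    intro v hv
    have h3 : Submodule.span ℂ (Set.range fun j : {j // d j ≤ a} => grad (F j) c) ≤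
        LinearMap.ker φ := by
      rw [Submodule.span_le]
      rintro _ ⟨j, rfl⟩
      rw [SetLike.mem_coe, LinearMap.mem_ker, hφa]
      have h4 := congrArg (eval c) (hFh j.1).sum_X_mul_pderiv
      rw [map_sum, map_nsmul, hz j.1 j.2, smul_zero] at h4
      rw [← h4]
      exact Finset.sum_congr rfl fun i _ => by rw [map_mul, eval_X]; rfl
    exact LinearMap.mem_ker.1 (h3 hv)
  rw [h1] at h2
  apply hc
  funext i
  have h3 := h2 (Pi.single i 1) Submodule.mem_top
  rw [hφa, Finset.sum_eq_single i] at h3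
  · simpa using h3
  · intro k _ hk
    rw [Pi.single_eq_of_ne hk, mul_zero]
  · intro h
    exact absurd (Finset.mem_univ _) h

/-- if all fibres have Euler characteristic `0`, then so has the set `Y` fibred by them -/
theorem chi_zero_of_fibres {χ : K0 →+* ℤ} (hχ : IsEulerCharF χ) {d : Fin r → ℕ}
    {F : Fin r → MvPolynomial (Fin N) ℂ} {e : ℕ} {Y : Set (Fin N → ℂ)} (hY : Constr Y)
    (h1 : ∀ x ∈ Y, ∀ j, d j < e → eval x (F j) = 0)
    (h2 : ∀ x ∈ Y, ∃ j, d j = e ∧ eval x (F j) ≠ 0)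
    (h3 : ∀ x₀ ∈ Y, ∀ x, (∀ j, d j ≤ e → eval x (F j) = eval x₀ (F j)) → x ∈ Y)
    (h4 : ∀ y : Fin r → ℂ, (∃ j, d j = e ∧ y j ≠ 0) →
      χ (cls {x | (∀ j, d j < e → eval x (F j) = 0) ∧
        ∀ j, d j = e → eval x (F j) = y j}) = 0) : χ (cls Y) = 0 := by
  classical
  set T : Set (Fin N ⊕ Fin r → ℂ) := {z | (fun i => z (Sum.inl i)) ∈ Y ∧
    ∀ j, z (Sum.inr j) = if d j = e then eval (fun i => z (Sum.inl i)) (F j) else 0} with hTdef
  have hTmem : ∀ (x : Fin N → ℂ) (y : Fin r → ℂ), Sum.elim x y ∈ T ↔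
      x ∈ Y ∧ ∀ j, y j = if d j = e then eval x (F j) else 0 := fun x y => Iff.rfl
  have hT : Constr T := by
    have c1 := hY.comp (Sum.inl : Fin N → Fin N ⊕ Fin r)
    have c2 : Constr (⋂ j : Fin r, {z : Fin N ⊕ Fin r → ℂ |
        eval z (X (Sum.inr j) : MvPolynomial (Fin N ⊕ Fin r) ℂ) =
        eval z (if d j = e then rename Sum.inl (F j) else 0 : MvPolynomial (Fin N ⊕ Fin r) ℂ)}) :=
      constr_iInter fun j => constr_eq _ _
    refine (congrArg Constr ?_).mpr (c1.inter c2)
    ext z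
    simp only [hTdef, Set.mem_ofPred_eq, Set.mem_inter_iff, Set.mem_iInter, eval_X]
    refine and_congr Iff.rfl (forall_congr' fun j => ?_)
    by_cases hj : d j = e
    · rw [if_pos hj, if_pos hj, eval_rename]
      rfl
    · rw [if_neg hj, if_neg hj, map_zero]
  have k1 : χ (cls T) = 0 := by
    have key := x4_fub2 hχ (σ₂ := Fin N) (τ := Fin r) hT constr_empty 1 0 (by
      intro y
      rw [zero_mul, add_zero, one_mul]
      by_cases hne : ∃ x₀ : Fin N → ℂ, Sum.elim x₀ y ∈ T
      · obtain ⟨x₀, hx₀⟩ := hne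
        rw [hTmem] at hx₀
        have e1 : {x : Fin N → ℂ | Sum.elim x y ∈ T} =
            {x | (∀ j, d j < e → eval x (F j) = 0) ∧ ∀ j, d j = e → eval x (F j) = y j} := by
          ext x
          rw [Set.mem_ofPred_eq, hTmem]
          constructor
          · rintro ⟨hx, hy⟩
            exact ⟨h1 x hx, fun j hj => by rw [hy j, if_pos hj]⟩
          · rintro ⟨hx, hy⟩
            refine ⟨h3 x₀ hx₀.1 x fun j hj => ?_, fun j => ?_⟩
            · rcases lt_or_eq_of_le hj with h5 | h5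
              · rw [hx j h5, h1 x₀ hx₀.1 j h5]
              · rw [hy j h5, hx₀.2 j, if_pos h5]
            · by_cases hj : d j = e
              · rw [if_pos hj, hy j hj]
              · rw [if_neg hj, hx₀.2 j, if_neg hj]
        rw [e1]
        obtain ⟨j, hj, hjx⟩ := h2 x₀ hx₀.1
        exact h4 y ⟨j, hj, by rw [hx₀.2 j, if_pos hj]; exact hjx⟩
      · have e1 : {x : Fin N → ℂ | Sum.elim x y ∈ T} = ∅ := by
          ext x
          simp only [Set.mem_ofPred_eq, Set.mem_empty_iff_false, iff_false]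
          exact fun hx => hne ⟨x, hx⟩
        rw [e1, cls_empty, map_zero])
    rwa [zero_mul, add_zero, one_mul] at key
  have k2 : χ (cls T) = 1 * χ (cls Y) := by
    refine chi_fib_left hχ hT hY 1 (fun x hx => ?_) (fun x hx y hy => hx ((hTmem x y).1 hy).1)
    have e1 : {y : Fin r → ℂ | Sum.elim x y ∈ T} =
        {fun j => if d j = e then eval x (F j) else 0} := by
      ext y
      rw [Set.mem_ofPred_eq, hTmem, Set.mem_singleton_iff]
      constructor
      · rintro ⟨-, h5⟩
        funext j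
        exact h5 j
      · rintro rfl
        exact ⟨hx, fun j => rfl⟩
    rw [e1, cls_singleton, map_one]
  rw [one_mul] at k2
  rw [← k2, k1]

theorem exists_fibre_mono {χ : K0 →+* ℤ} (hχ : IsEulerCharC χ) {d : Fin r → ℕ}
    {F : Fin r → MvPolynomial (Fin N) ℂ} (hd : Monotone d) (hd0 : ∀ j, 0 < d j)
    (hFh : ∀ j, (F j).IsHomogeneous (d j)) (hF : CInt d F) (j₀ : Fin r)
    (hn : (Finset.univ.filter fun j => d j < d j₀).card < N)
    (hq : ¬ (d j₀ : ℤ) ∣ N - ∑ j with d j < d j₀, (d j : ℤ)) :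
    ∃ y : Fin r → ℂ, (∃ j, d j = d j₀ ∧ y j ≠ 0) ∧
      χ (cls {x | (∀ j, d j < d j₀ → eval x (F j) = 0) ∧
        ∀ j, d j = d j₀ → eval x (F j) = y j}) ≠ 0 := by
  classical
  by_contra hcon
  push Not at hcon
  obtain ⟨B, hB, hA⟩ := exists_B d F
  set e := d j₀ with he
  -- the last index of degree `e`
  obtain ⟨M, hM, hMlast⟩ : ∃ M : Fin r, d M = e ∧ ∀ j, d j ≤ e ↔ j ≤ M := by
    have hne : (Finset.univ.filter fun j => d j ≤ e).Nonempty :=
      ⟨j₀, by rw [Finset.mem_filter]; exact ⟨Finset.mem_univ _, le_rfl⟩⟩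
    have h1 := Finset.max'_mem _ hne
    have h2 := Finset.le_max' (Finset.univ.filter fun j => d j ≤ e)
    set M := (Finset.univ.filter fun j => d j ≤ e).max' hne with hM
    have h3 : d M ≤ e := (Finset.mem_filter.1 h1).2
    have h4 : j₀ ≤ M := h2 j₀ (by rw [Finset.mem_filter]; exact ⟨Finset.mem_univ _, le_rfl⟩)
    have h5 : d M = e := le_antisymm h3 (hd h4)
    refine ⟨M, h5, fun j => ⟨fun h => ?_, fun h => h5 ▸ hd h⟩⟩
    exact h2 j (by rw [Finset.mem_filter]; exact ⟨Finset.mem_univ _, h⟩)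
  -- the index which is used
  obtain ⟨m1, hm1, hmN, hm1M⟩ : ∃ m1 : Fin r, d m1 = e ∧ (m1 : ℕ) + 1 ≤ N ∧
      (m1 = M ∨ (m1 : ℕ) + 1 = N) := by
    by_cases hMN : (M : ℕ) + 1 ≤ N
    · exact ⟨M, hM, hMN, Or.inl rfl⟩
    · have hN0 : 0 < N := lt_of_le_of_lt (Nat.zero_le _) hn
      have hMr := M.isLt
      refine ⟨⟨N - 1, by omega⟩, ?_, ?_, Or.inr ?_⟩
      · have h1 : (⟨N - 1, by omega⟩ : Fin r) ≤ M := by
          rw [Fin.le_def]
          show N - 1 ≤ (M : ℕ)
          omega
        refine le_antisymm ((hMlast _).2 h1) ?_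
        by_contra h2
        push Not at h2
        have h3 : Finset.Iic (⟨N - 1, by omega⟩ : Fin r) ⊆
            Finset.univ.filter fun j => d j < e := by
          intro j hj
          rw [Finset.mem_Iic] at hj
          exact Finset.mem_filter.2 ⟨Finset.mem_univ _, lt_of_le_of_lt (hd hj) h2⟩
        have h4 := Finset.card_le_card h3
        rw [Fin.card_Iic] at h4
        have h5 : ((⟨N - 1, by omega⟩ : Fin r) : ℕ) = N - 1 := rfl
        omega
      · show N - 1 + 1 ≤ N
        omega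
      · show N - 1 + 1 = N
        omega
  have hm : (m1 : ℕ) + 1 ≤ r := m1.isLt
  have hm' : (m1 : ℕ) ≤ r := Nat.le_of_succ_le hm
  have hcast : Fin.castLE hm (Fin.rev 0) = m1 := by
    rw [Fin.rev_zero]
    rfl
  have hδ0 : fdeg d hm 0 = e := by
    unfold fdeg
    rw [hcast, hm1]
  set L : List ℕ := List.ofFn (fdeg d hm') with hL
  have hLcons : List.ofFn (fdeg d hm) = e :: L := by
    rw [List.ofFn_succ, hδ0, hL, ← fdeg_tail d hm]
    rfl
  have hpos : ∀ {m : ℕ} (hm : m ≤ r) (j : Fin m), 0 < fdeg d hm j := fun hm j => hd0 _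
  have hhom : ∀ {m : ℕ} (hm : m ≤ r) (j : Fin m), (fam F B hm j).IsHomogeneous (fdeg d hm j) :=
    fun hm j => homog_Phi hFh hB _
  have hx1 : χ (cls (PV (fam F B hm))) = P N (e :: L) := by
    rw [chi_PV hχ N (fam F B hm) (fdeg d hm) (hpos hm) (hhom hm) (flag_fam hd hd0 hF hB hA hm),
      hLcons]
  have hx2 : χ (cls (PV (Fin.tail (fam F B hm)))) = P N L := by
    rw [fam_tail, chi_PV hχ N (fam F B hm') (fdeg d hm') (hpos hm') (hhom hm')
      (flag_fam hd hd0 hF hB hA hm')]
  have hY := chi_fibre hχ.toIsEulerCharF (hpos hm) (hhom hm)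
  rw [hx1, hx2, hδ0, ← Q_cons] at hY
  set Y : Set (Fin N → ℂ) := {x : Fin N → ℂ | (∀ j : Fin (m1 : ℕ),
    eval x (fam F B hm j.succ) = 0) ∧ eval x (fam F B hm 0) = 1} with hYdef
  have hYmem : ∀ x, x ∈ Y ↔ ∀ i, i ≤ m1 → eval x (Phi F B i) = if i = m1 then 1 else 0 := by
    intro x
    rw [hYdef, Set.mem_ofPred_eq]
    constructor
    · rintro ⟨h3, h4⟩ i hi
      rcases lt_or_eq_of_le hi with h5 | h5
      · rw [if_neg h5.ne]
        have h6 := h3 (Fin.rev ⟨i, h5⟩)
        unfold fam at h6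
        rw [Fin.rev_succ, Fin.rev_rev] at h6
        exact h6
      · subst h5
        rw [if_pos rfl]
        unfold fam at h4
        rw [hcast] at h4
        exact h4
    · intro h3
      refine ⟨fun j => ?_, ?_⟩
      · have hlt : Fin.castLE hm (Fin.rev j.succ) < m1 := by
          rw [Fin.rev_succ]
          exact (Fin.rev j).isLt
        have h4 := h3 _ hlt.le
        rw [if_neg hlt.ne] at h4
        exact h4
      · have h4 := h3 m1 le_rfl
        rw [if_pos rfl] at h4
        unfold fam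
        rw [hcast]
        exact h4
  have hYc : Constr Y := by
    have h1 : Constr (⋂ j : Fin (m1 : ℕ),
        {x : Fin N → ℂ | eval x (fam F B hm j.succ) = eval x (C 0)}) :=
      constr_iInter fun j => constr_eq _ _
    have h2 := h1.inter (constr_eq (fam F B hm 0) (C 1))
    refine (congrArg Constr ?_).mpr h2
    ext x
    simp only [hYdef, Set.mem_ofPred_eq, Set.mem_inter_iff, Set.mem_iInter, eval_C]
  have hltm1 : ∀ j, d j < e → j < m1 := by
    intro j hj
    by_contra h1
    exact absurd (hd (not_lt.1 h1)) (not_le.2 (hm1.symm ▸ hj))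
  have hQ : Q N (e :: L) = 0 := by
    rw [← hY]
    refine chi_zero_of_fibres hχ.toIsEulerCharF (d := d) (F := F) (e := e) hYc ?_ ?_ ?_ hcon
    · intro x hx j hj
      refine tri_zero hB (fun l => eval x (F l)) (d j) (fun l hl => ?_) j rfl
      have h1 := hltm1 l (hl ▸ hj)
      rw [← eval_Phi, (hYmem x).1 hx l h1.le, if_neg h1.ne]
    · intro x hx
      by_contra h1
      push Not at h1
      have h2 := (hYmem x).1 hx m1 le_rfl
      rw [if_pos rfl, eval_Phi, h1 m1 hm1, zero_add, Finset.sum_eq_zero] at h2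
      · exact zero_ne_one h2
      · intro l _
        by_cases hl : B m1 l = 0
        · rw [hl, zero_mul]
        · rw [h1 l ((hB m1 l hl).2.trans hm1), mul_zero]
    · intro x₀ hx₀ x hx
      rw [hYmem] at hx₀ ⊢
      intro i hi
      have hdi : d i ≤ e := hm1 ▸ hd hi
      rw [← hx₀ i hi, eval_Phi, eval_Phi, hx i hdi]
      congr 1
      refine Finset.sum_congr rfl fun l _ => ?_
      by_cases hl : B i l = 0
      · rw [hl, zero_mul, zero_mul]
      · rw [hx l ((hB i l hl).2 ▸ hdi)]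
  have he1 : e ≠ 1 := by
    intro h1
    apply hq
    rw [h1]
    exact one_dvd _
  have hLlen : L.length = m1 := by rw [hL, List.length_ofFn]
  obtain ⟨h2, h3, h4⟩ := Q_ne_zero (δ := L) (fun a ha => by
      rw [hL, List.mem_ofFn] at ha
      obtain ⟨j, rfl⟩ := ha
      exact hpos hm' j) (by have := hd0 j₀; omega) (by rw [hLlen]; exact hmN) hQ
  rw [hLlen] at h4
  rcases hm1M with hM1 | hM1
  swap
  · have h5 : N - (m1 : ℕ) = 1 := by omega
    rw [h5] at h4
    exact absurd h4 (by decide)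
  apply hq
  rw [← hM1] at hMlast
  have h5 : (Finset.univ.filter fun j => d j < e) = Finset.Iio m1 := by
    ext j
    rw [Finset.mem_filter, Finset.mem_Iio]
    refine ⟨fun h => hltm1 j h.2, fun hj => ⟨Finset.mem_univ _, ?_⟩⟩
    have h6 : d j ∈ L := by
      rw [hL, List.mem_ofFn]
      refine ⟨Fin.rev ⟨j, hj⟩, ?_⟩
      unfold fdeg
      rw [Fin.rev_rev]
      rfl
    rw [h3 _ h6, h2]
    exact Nat.one_lt_two
  have h6 : ∑ j with d j < e, (d j : ℤ) = m1 := by
    rw [h5, Finset.sum_congr rfl (g := fun _ => (1 : ℤ)) (fun j hj => by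
      have h7 : j ∈ Finset.univ.filter fun j => d j < e := h5 ▸ hj
      have h8 := (Finset.mem_filter.1 h7).2
      rw [h2] at h8
      have h9 := hd0 j
      have h10 : d j = 1 := by omega
      rw [h10]
      rfl)]
    simp
  rw [h6, h2]
  obtain ⟨k, hk⟩ := h4
  have h7 : (m1 : ℕ) ≤ N := le_trans (Nat.le_succ _) hmN
  refine ⟨k, ?_⟩
  have h8 : ((N - (m1 : ℕ) : ℕ) : ℤ) = N - (m1 : ℕ) := Nat.cast_sub h7
  rw [← h8, hk]
  push_cast
  ring

/-- **Fibres with non-zero Euler characteristic** -/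
theorem exists_fibre {χ : K0 →+* ℤ} (hχ : IsEulerCharC χ) {d : Fin r → ℕ}
    {F : Fin r → MvPolynomial (Fin N) ℂ} (hd0 : ∀ j, 0 < d j)
    (hFh : ∀ j, (F j).IsHomogeneous (d j)) (hF : CInt d F) (j₀ : Fin r) {c : Fin N → ℂ}
    (hc : c ≠ 0) (hz : ∀ j, d j < d j₀ → eval c (F j) = 0)
    (hq : ¬ (d j₀ : ℤ) ∣ N - ∑ j with d j < d j₀, (d j : ℤ)) :
    ∃ y : Fin r → ℂ, (∃ j, d j = d j₀ ∧ y j ≠ 0) ∧
      χ (cls {x | (∀ j, d j < d j₀ → eval x (F j) = 0) ∧
        ∀ j, d j = d j₀ → eval x (F j) = y j}) ≠ 0 := by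
  classical
  have hn : (Finset.univ.filter fun j => d j < d j₀).card < N := by
    have h1 := card_lt hFh hF hc (a := d j₀ - 1) (fun j hj => hz j (by have := hd0 j₀; omega))
    have h2 : (Finset.univ.filter fun j => d j < d j₀) =
        Finset.univ.filter fun j => d j ≤ d j₀ - 1 := by
      ext j
      have := hd0 j₀
      simp only [Finset.mem_filter, Finset.mem_univ, true_and]
      omega
    rw [h2]
    exact h1
  set π := Tuple.sort d with hπ
  have hmono : Monotone (d ∘ π) := Tuple.monotone_sort d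
  have hF' : CInt (d ∘ π) (F ∘ π) := by
    intro c hc a hz
    have h1 := hF c hc a (fun j hj => by
      have h2 := hz (π.symm j) (by simpa using hj)
      simpa using h2)
    exact h1.comp (fun j : {j // (d ∘ π) j ≤ a} => (⟨π j.1, j.2⟩ : {j // d j ≤ a}))
      (fun a b hab => Subtype.ext (π.injective (congrArg Subtype.val hab)))
  have hsum : ∑ j with (d ∘ π) j < d j₀, ((d ∘ π) j : ℤ) = ∑ j with d j < d j₀, (d j : ℤ) := by
    rw [Finset.sum_filter, Finset.sum_filter]
    exact Equiv.sum_comp π fun j => if d j < d j₀ then (d j : ℤ) else 0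
  have hcard : (Finset.univ.filter fun j => (d ∘ π) j < d j₀).card =
      (Finset.univ.filter fun j => d j < d j₀).card := by
    rw [Finset.card_filter, Finset.card_filter]
    exact Equiv.sum_comp π fun j => if d j < d j₀ then 1 else 0
  have hj₀ : (d ∘ π) (π.symm j₀) = d j₀ := by simp
  obtain ⟨y, ⟨j, hj, hyj⟩, hne⟩ := exists_fibre_mono hχ hmono (fun j => hd0 _)
    (fun j => hFh (π j)) hF' (π.symm j₀) (by rw [hj₀, hcard]; exact hn)
    (by rw [hj₀, hsum]; exact hq)
  rw [hj₀] at hj hne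
  refine ⟨y ∘ π.symm, ⟨π j, hj, by simpa using hyj⟩, ?_⟩
  have e : {x : Fin N → ℂ | (∀ j, d j < d j₀ → eval x (F j) = 0) ∧
        ∀ j, d j = d j₀ → eval x (F j) = (y ∘ π.symm) j} =
      {x | (∀ j, (d ∘ π) j < d j₀ → eval x ((F ∘ π) j) = 0) ∧
        ∀ j, (d ∘ π) j = d j₀ → eval x ((F ∘ π) j) = y j} := by
    ext x
    constructor
    · rintro ⟨h1, h2⟩
      refine ⟨fun j hj => h1 (π j) hj, fun j hj => ?_⟩
      have h3 := h2 (π j) hj
      simpa using h3
    · rintro ⟨h1, h2⟩
      refine ⟨fun j hj => ?_, fun j hj => ?_⟩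
      · have h3 := h1 (π.symm j) (by simpa using hj)
        simpa using h3
      · have h3 := h2 (π.symm j) (by simpa using hj)
        simpa using h3
  rw [e]
  exact hne

end HC
end MotMono
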