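import Pool.Agent.Lib.MP_4e5fcd_ag.HC.Fib

/-!
# HC-Main: ideals whose initial forms define nonsingular complete intersections
-/

open MvPolynomial

namespace MotMono
namespace HC

open WH LF HZ

variable {N r : ℕ}

theorem hom_main {χ : K0 →+* ℤ} (hχ : IsEulerCharC χ) (d : Fin r → ℕ)
    (f : Fin r → MvPolynomial (Fin N) ℂ) (hr : 0 < r) (hd : ∀ j, 0 < d j)
    (ho : ∀ j m, coeff m (f j) ≠ 0 → d j ≤ ∑ i, m i) (hi : ∀ j, ini (fun _ => 1) d f j ≠ 0)
    (hs : CInt d (ini (fun _ => 1) d f)) (s₀ : ℚ)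
    (hpole : IsPole (Zmot (Ideal.span (Set.range f))) s₀) (ε : ℝ) (hε : 0 < ε) :
    ∃ p : Fin N → ℂ, ‖p‖ < ε ∧ (∀ g ∈ Ideal.span (Set.range f), eval p g = 0) ∧
      ∃ y : ConePoint (Ideal.span (Set.range f)) p, y.Nonzero ∧
        ∃ Z, IsZeta (fun m => χ (cls (contactArcs (Ideal.span (Set.range f)) p y m))) Z ∧
          ZeroOrPole Z (Complex.exp (2 * Real.pi * Complex.I * s₀)) := by
  classical
  have hhom : ∀ j, (ini (fun _ => 1) d f j).IsHomogeneous (d j) := fun j =>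
    weightedHomogeneousComponent_isWeightedHomogeneous (d j) (f j)
  refine swci_main hχ.toIsEulerCharF (fun _ => 1) d f hr (fun _ => Nat.one_pos) hd
    (fun j m hm => by simpa using ho j m hm) hi hs s₀ ?_ hpole ε hε
  rintro e ⟨j₀, rfl⟩ ⟨c, hc, hz⟩ heq hs₀
  have he : 0 < d j₀ := hd j₀
  have he' : (d j₀ : ℚ) ≠ 0 := by exact_mod_cast he.ne'
  obtain ⟨y, hy, hX⟩ := exists_fibre hχ hd hhom hs j₀ hc hz (by
    rintro ⟨k, hk⟩
    apply hs₀ (-k - (Finset.univ.filter fun j => d j < d j₀).card)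
    rw [heq]
    unfold qn nn
    have h2 : ∑ _i : Fin N, (((1 : ℕ) : ℤ)) = N := by simp
    rw [h2, hk]
    push_cast
    field_simp
    ring)
  refine ⟨y, hy, ?_⟩
  have hm : ∀ m ∈ Finset.Icc 1 (d j₀), m ≠ d j₀ →
      Complex.exp (-(2 * Real.pi * Complex.I * s₀ * m)) *
        (χ (cls (fibre (fun _ => 1) d (ini (fun _ => 1) d f) (d j₀) y m)) : ℂ) = 0 := by
    intro m hm hne
    rw [Finset.mem_Icc] at hm
    have h1 : fibre (fun _ => 1) d (ini (fun _ => 1) d f) (d j₀) y m = ∅ := by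
      rw [Set.eq_empty_iff_forall_notMem]
      rintro x ⟨-, h2, h3⟩
      have hx : x = 0 := by
        funext i
        refine h3 i fun h4 => ?_
        rw [mul_one] at h4
        have := Nat.le_of_dvd (by omega) h4
        omega
      obtain ⟨j, hj, hyj⟩ := hy
      apply hyj
      rw [← h2 j hj]
      exact eval_zero_homog (hd j) (hhom j) hx
    rw [h1, cls_empty, map_zero]
    simp
  rw [Finset.sum_eq_single (d j₀) hm (fun h => absurd (Finset.mem_Icc.2 ⟨he, le_rfl⟩) h)]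
  refine mul_ne_zero (Complex.exp_ne_zero _) ?_
  have h1 : fibre (fun _ => 1) d (ini (fun _ => 1) d f) (d j₀) y (d j₀) =
      {x | (∀ j, d j < d j₀ → eval x (ini (fun _ => 1) d f j) = 0) ∧
          ∀ j, d j = d j₀ → eval x (ini (fun _ => 1) d f j) = y j} := by
    ext x
    constructor
    · rintro ⟨h2, h3, -⟩
      exact ⟨h2, h3⟩
    · rintro ⟨h2, h3⟩
      exact ⟨h2, h3, fun i hi => absurd (by rw [mul_one]) hi⟩
  rw [h1]
  exact_mod_cast hX

end HC
end MotMono
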