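import Pool.Agent.Lib.MP_4e5fcd_ag.HC.Ns
import Pool.Agent.Lib.MP_4e5fcd_ag.HZ.P

/-!
# HC-Ch: Euler characteristics of projective varieties and of cyclic coverings
-/

open MvPolynomial

namespace MotMono
namespace HC

open LF HZ

theorem constr_PV {N c : ℕ} (F : Fin c → MvPolynomial (Fin N) ℂ) : Constr (PV F) := by
  have h1 : Constr (⋂ j : Fin c, {x : Fin N → ℂ | eval x (F j) = eval x (C 0)}) :=
    constr_iInter fun j => constr_eq _ _
  have e : PV F = {x : Fin N → ℂ | Nrm x} ∩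
      (⋂ j : Fin c, {x : Fin N → ℂ | eval x (F j) = eval x (C 0)}) := by
    ext x
    simp only [PV, Nrm, Set.mem_ofPred_eq, Set.mem_inter_iff, Set.mem_iInter, eval_C]
  rw [e]
  exact constr_nrm.inter h1

theorem PV_mem {N c : ℕ} (F : Fin c → MvPolynomial (Fin N) ℂ) (x : Fin N → ℂ) :
    x ∈ PV F ↔ Nrm x ∧ ∀ j, eval x (F j) = 0 := Iff.rfl

/-- the last coordinate separately -/
def eqv (N : ℕ) : Fin N ⊕ Unit ≃ Fin (N + 1) where
  toFun := Sum.elim Fin.castSucc fun _ => Fin.last N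
  invFun := Fin.lastCases (motive := fun _ => Fin N ⊕ Unit) (Sum.inr ()) Sum.inl
  left_inv := by
    rintro (l | u)
    · simp
    · simp
  right_inv := by
    intro i
    refine Fin.lastCases ?_ (fun l => ?_) i
    · simp
    · simp

theorem eqv_symm_cast {N : ℕ} (l : Fin N) : (eqv N).symm l.castSucc = Sum.inl l := by
  rw [Equiv.symm_apply_eq]
  rfl

theorem eqv_symm_last {N : ℕ} : (eqv N).symm (Fin.last N) = Sum.inr () := by
  rw [Equiv.symm_apply_eq]
  rfl

theorem nrm_succ {N : ℕ} (z : Fin (N + 1) → ℂ) : Nrm z ↔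
    Nrm (fun l => z l.castSucc) ∨ ((∀ l : Fin N, z l.castSucc = 0) ∧ z (Fin.last N) = 1) := by
  constructor
  · rintro ⟨i, hi, hi'⟩
    revert hi hi'
    refine Fin.lastCases ?_ (fun l => ?_) i
    · intro hi hi'
      exact Or.inr ⟨fun l => hi' _ (Fin.castSucc_lt_last l), hi⟩
    · intro hi hi'
      exact Or.inl ⟨l, hi, fun j hj => hi' j.castSucc (Fin.castSucc_lt_castSucc_iff.2 hj)⟩
  · rintro (⟨l, hl, hl'⟩ | ⟨h1, h2⟩)
    · refine ⟨l.castSucc, hl, fun j => ?_⟩
      refine Fin.lastCases ?_ (fun k => ?_) j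
      · intro h
        exact absurd h (not_lt.2 (Fin.castSucc_lt_last l).le)
      · intro h
        exact hl' k (Fin.castSucc_lt_castSucc_iff.1 h)
    · refine ⟨Fin.last N, h2, fun j => ?_⟩
      refine Fin.lastCases ?_ (fun k => ?_) j
      · intro h
        exact absurd h (lt_irrefl _)
      · intro _
        exact h1 k

/-- separate the last coordinate -/
theorem cls_split {N : ℕ} {E : Set (Fin (N + 1) → ℂ)} (hE : Constr E) :
    cls E = cls {y : Fin N ⊕ Unit → ℂ | (fun i => y ((eqv N).symm i)) ∈ E} :=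
  cls_iso hE (hE.comp (eqv N).symm) (RegIso.reindex (eqv N).symm E)

/-- the empty system: `χ (P^(N-1)) = N` -/
theorem chi_PV_nil {χ : K0 →+* ℤ} (hχ : IsEulerCharF χ) :
    ∀ (N : ℕ) (F : Fin 0 → MvPolynomial (Fin N) ℂ), χ (cls (PV F)) = N
  | 0, F => by
    have e : PV F = ∅ := by
      ext x
      simp only [PV, Set.mem_ofPred_eq, Set.mem_empty_iff_false, iff_false, not_and]
      rintro ⟨i, -⟩
      exact i.elim0
    rw [e, cls_empty, map_zero]
    rfl
  | N + 1, F => by
    have ih := chi_PV_nil hχ N (fun j => j.elim0)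
    rw [cls_split (constr_PV F)]
    have e : {y : Fin N ⊕ Unit → ℂ | (fun i => y ((eqv N).symm i)) ∈ PV F} =
        prodSet (PV (fun j => j.elim0 : Fin 0 → MvPolynomial (Fin N) ℂ)) Set.univ ∪
          {Sum.elim (fun _ => 0) (fun _ => 1)} := by
      ext y
      rw [Set.mem_ofPred_eq, PV_mem, nrm_succ]
      simp only [PV_mem, prodSet, Set.mem_ofPred_eq, Set.mem_union, Set.mem_singleton_iff,
        eqv_symm_cast, eqv_symm_last, Set.mem_univ, and_true]
      constructor
      · rintro ⟨h | ⟨h1, h2⟩, -⟩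
        · exact Or.inl ⟨h, fun j => j.elim0⟩
        · refine Or.inr ?_
          funext i
          rcases i with i | i
          · exact h1 i
          · exact h2
      · rintro (⟨h, -⟩ | h)
        · exact ⟨Or.inl h, fun j => j.elim0⟩
        · subst h
          exact ⟨Or.inr ⟨fun l => rfl, rfl⟩, fun j => j.elim0⟩
    have hd : Disjoint (prodSet (PV (fun j => j.elim0 : Fin 0 → MvPolynomial (Fin N) ℂ))
        (Set.univ : Set (Unit → ℂ))) {Sum.elim (fun _ => 0) (fun _ => 1)} := by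
      rw [Set.disjoint_singleton_right]
      rintro ⟨⟨⟨i, hi, -⟩, -⟩, -⟩
      exact zero_ne_one hi
    rw [e, cls_union ((constr_PV _).prodSet constr_univ) (constr_singleton _) hd,
      cls_prodSet (constr_PV _) constr_univ, cls_singleton, map_add, map_mul, ih, map_one]
    have h1 : χ (cls (Set.univ : Set (Unit → ℂ))) = 1 := hχ.line
    rw [h1]
    push_cast
    ring

theorem PV_subset_tail {N c : ℕ} (F : Fin (c + 1) → MvPolynomial (Fin N) ℂ) :
    PV F ⊆ PV (Fin.tail F) := fun _ hx => ⟨hx.1, fun j => hx.2 j.succ⟩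

/-- the class of the cyclic covering over the complement -/
theorem chi_kum {χ : K0 →+* ℤ} (hχ : IsEulerCharF χ) {N c e : ℕ} (he : 0 < e)
    (F : Fin (c + 1) → MvPolynomial (Fin N) ℂ) :
    χ (cls (kummerCover (PV (Fin.tail F) \ PV F) (F 0) e)) =
      e * (χ (cls (PV (Fin.tail F))) - χ (cls (PV F))) := by
  rw [(isEulerChar_of_F hχ).kummer _ ((constr_PV _).diff (constr_PV _)) (F 0) (fun x hx => ?_) e he,
    cls_diff (constr_PV _) (constr_PV _) (PV_subset_tail F), map_sub]
  intro h0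
  refine hx.2 ⟨hx.1.1, fun j => ?_⟩
  refine Fin.cases h0 (fun k => ?_) j
  exact hx.1.2 k

theorem constr_kummer {σ : Type} {E : Set (σ → ℂ)} (hE : Constr E) (h : MvPolynomial σ ℂ)
    (e : ℕ) : Constr (kummerCover E h e) := by
  have h1 := hE.comp (Sum.inl : σ → σ ⊕ Unit)
  have h2 := constr_eq (X (Sum.inr ()) ^ e : MvPolynomial (σ ⊕ Unit) ℂ)
    (rename Sum.inl h : MvPolynomial (σ ⊕ Unit) ℂ)
  refine (congrArg Constr ?_).mpr (h1.inter h2)
  ext z
  simp only [kummerCover, Set.mem_ofPred_eq, Set.mem_inter_iff, map_pow, eval_X, eval_rename]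
  rfl

/-- the Euler characteristic of a cyclic covering -/
theorem chi_cyc {χ : K0 →+* ℤ} (hχ : IsEulerCharF χ) {N c e : ℕ} (he : 0 < e)
    (F : Fin (c + 1) → MvPolynomial (Fin N) ℂ) (h0 : eval 0 (F 0) = 0) :
    χ (cls (PV (cyc e F))) =
      e * χ (cls (PV (Fin.tail F))) - (e - 1) * χ (cls (PV F)) := by
  rw [cls_split (constr_PV _)]
  have e1 : {y : Fin N ⊕ Unit → ℂ | (fun i => y ((eqv N).symm i)) ∈ PV (cyc e F)} =
      kummerCover (PV (Fin.tail F) \ PV F) (F 0) e ∪ prodSet (PV F) {fun _ => 0} := by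
    ext y
    set x : Fin N → ℂ := fun l => y (Sum.inl l) with hx
    have hm : (fun i => y ((eqv N).symm i)) ∈ PV (cyc e F) ↔
        Nrm x ∧ eval x (F 0) = y (Sum.inr ()) ^ e ∧ ∀ j : Fin c, eval x (F j.succ) = 0 := by
      have hev : ∀ p : MvPolynomial (Fin N) ℂ,
          eval (fun i => y ((eqv N).symm i)) (up p) = eval x p := by
        intro p
        rw [eval_up]
        simp only [eqv_symm_cast, hx]
      have h1 : (∀ j, eval (fun i => y ((eqv N).symm i)) (cyc e F j) = 0) ↔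
          eval x (F 0) = y (Sum.inr ()) ^ e ∧ ∀ j : Fin c, eval x (F j.succ) = 0 := by
        rw [Fin.forall_fin_succ]
        refine and_congr ?_ (forall_congr' fun j => ?_)
        · rw [cyc_zero, map_sub, hev, map_pow, eval_X, eqv_symm_last, sub_eq_zero]
        · rw [cyc_succ, hev]
      rw [PV_mem, h1, nrm_succ]
      simp only [eqv_symm_cast, eqv_symm_last]
      constructor
      · rintro ⟨h | ⟨h2, h3⟩, h4, h5⟩
        · exact ⟨h, h4, h5⟩
        · exfalso
          have h6 : x = 0 := funext h2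
          rw [h6, h0, h3, one_pow] at h4
          exact zero_ne_one h4
      · rintro ⟨h, h4, h5⟩
        exact ⟨Or.inl h, h4, h5⟩
    rw [Set.mem_ofPred_eq, hm]
    constructor
    · rintro ⟨h1, h2, h3⟩
      by_cases hw : y (Sum.inr ()) = 0
      · refine Or.inr ⟨⟨h1, fun j => ?_⟩, ?_⟩
        · refine Fin.cases ?_ h3 j
          show eval x (F 0) = 0
          rw [h2, hw, zero_pow he.ne']
        · rw [Set.mem_singleton_iff]
          funext u
          exact hw
      · refine Or.inl ⟨⟨⟨h1, h3⟩, fun h4 => ?_⟩, h2.symm⟩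
        have h5 := h4.2 0
        exact pow_ne_zero e hw (h2 ▸ h5)
    · rintro (⟨⟨⟨h1, h3⟩, -⟩, h2⟩ | ⟨⟨h1, h3⟩, h2⟩)
      · exact ⟨h1, h2.symm, h3⟩
      · refine ⟨h1, ?_, fun j => h3 j.succ⟩
        have h4 : y (Sum.inr ()) = 0 := congrFun (Set.mem_singleton_iff.1 h2) ()
        rw [h4, zero_pow he.ne']
        exact h3 0
  have hd : Disjoint (kummerCover (PV (Fin.tail F) \ PV F) (F 0) e)
      (prodSet (PV F) {fun _ => 0}) := by
    rw [Set.disjoint_left]
    rintro y h1 h2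
    exact h1.1.2 h2.1
  rw [e1, cls_union (constr_kummer ((constr_PV _).diff (constr_PV _)) _ _)
    ((constr_PV _).prodSet (constr_singleton _)) hd, cls_prodSet (constr_PV _) (constr_singleton _),
    cls_singleton, mul_one, map_add, chi_kum hχ he]
  ring

/-- the Euler characteristic of the fibre `{F 0 = 1}` on the cone of `tail F` -/
theorem chi_fibre {χ : K0 →+* ℤ} (hχ : IsEulerCharF χ) {N c : ℕ}
    {F : Fin (c + 1) → MvPolynomial (Fin N) ℂ} {δ : Fin (c + 1) → ℕ} (hδ : ∀ j, 0 < δ j)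
    (hF : ∀ j, (F j).IsHomogeneous (δ j)) :
    χ (cls {x : Fin N → ℂ | (∀ j : Fin c, eval x (F j.succ) = 0) ∧ eval x (F 0) = 1}) =
      δ 0 * (χ (cls (PV (Fin.tail F))) - χ (cls (PV F))) := by
  set Y : Set (Fin N → ℂ) :=
    {x : Fin N → ℂ | (∀ j : Fin c, eval x (F j.succ) = 0) ∧ eval x (F 0) = 1} with hY
  set E : Set (Fin N → ℂ) := PV (Fin.tail F) \ PV F with hE
  set K := kummerCover E (F 0) (δ 0) with hKdef
  have hEc : Constr E := (constr_PV _).diff (constr_PV _)
  have hK : Constr K := constr_kummer hEc _ _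
  have hYc : Constr Y := by
    have h1 : Constr (⋂ j : Fin c, {x : Fin N → ℂ | eval x (F j.succ) = eval x (C 0)}) :=
      constr_iInter fun j => constr_eq _ _
    have h2 := h1.inter (constr_eq (F 0) (C 1))
    refine (congrArg Constr ?_).mpr h2
    ext x
    simp only [hY, Set.mem_ofPred_eq, Set.mem_inter_iff, Set.mem_iInter, eval_C]
  have hZ : Constr ({z : (Fin N ⊕ Unit) ⊕ Fin N → ℂ | (fun i => z (Sum.inl i)) ∈ K} ∩
      ⋂ i : Fin N, {z : (Fin N ⊕ Unit) ⊕ Fin N → ℂ |
        eval z (X (Sum.inl (Sum.inl i))) = eval z (X (Sum.inl (Sum.inr ())) * X (Sum.inr i))}) :=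
    (hK.comp (Sum.inl : Fin N ⊕ Unit → (Fin N ⊕ Unit) ⊕ Fin N)).inter
      (constr_iInter fun i => constr_eq _ _)
  have hmem : ∀ (w : Fin N ⊕ Unit → ℂ) (x' : Fin N → ℂ),
      Sum.elim w x' ∈ ({z : (Fin N ⊕ Unit) ⊕ Fin N → ℂ | (fun i => z (Sum.inl i)) ∈ K} ∩
      ⋂ i : Fin N, {z : (Fin N ⊕ Unit) ⊕ Fin N → ℂ |
        eval z (X (Sum.inl (Sum.inl i))) = eval z (X (Sum.inl (Sum.inr ())) * X (Sum.inr i))}) ↔
      w ∈ K ∧ ∀ i, w (Sum.inl i) = w (Sum.inr ()) * x' i := by
    intro w x'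
    simp only [Set.mem_inter_iff, Set.mem_ofPred_eq, Set.mem_iInter, eval_X, eval_mul,
      Sum.elim_inl, Sum.elim_inr]
  have hEmem : ∀ x : Fin N → ℂ, x ∈ E ↔
      Nrm x ∧ (∀ j : Fin c, eval x (F j.succ) = 0) ∧ eval x (F 0) ≠ 0 := by
    intro x
    constructor
    · rintro ⟨⟨h1, h2⟩, h3⟩
      refine ⟨h1, h2, fun h4 => h3 ⟨h1, fun j => ?_⟩⟩
      exact Fin.cases h4 h2 j
    · rintro ⟨h1, h2, h3⟩
      exact ⟨⟨h1, h2⟩, fun h4 => h3 (h4.2 0)⟩
  have hKmem : ∀ w : Fin N ⊕ Unit → ℂ, w ∈ K ↔ (fun i => w (Sum.inl i)) ∈ E ∧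
      w (Sum.inr ()) ^ δ 0 = eval (fun i => w (Sum.inl i)) (F 0) := fun w => Iff.rfl
  have hK0 : ∀ w ∈ K, w (Sum.inr ()) ≠ 0 := by
    intro w hw hw0
    have h2 := ((hKmem w).1 hw).2
    rw [hw0, zero_pow (hδ 0).ne'] at h2
    exact ((hEmem _).1 ((hKmem w).1 hw).1).2.2 h2.symm
  have key : χ (cls K) = χ (cls Y) := by
    refine chi_corr hχ hZ hK hYc ?_ ?_ ?_
    · intro w hw
      have h0 := hK0 w hw
      refine ⟨fun i => (w (Sum.inr ()))⁻¹ * w (Sum.inl i), fun x' => ?_⟩
      rw [hmem]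
      constructor
      · rintro ⟨-, h2⟩
        funext i
        rw [h2 i, inv_mul_cancel_left₀ h0]
      · rintro rfl
        exact ⟨hw, fun i => by rw [mul_inv_cancel_left₀ h0]⟩
    · intro x' hx'
      have hx0 : x' ≠ 0 := by
        intro h0
        have h2 := hx'.2
        rw [eval_zero_homog (hδ 0) (hF 0) h0] at h2
        exact zero_ne_one h2
      obtain ⟨c', hc, hn⟩ := Nrm.exists_scale hx0
      have hev0 : eval (fun i => c' * x' i) (F 0) = c' ^ δ 0 := by
        rw [eval_scale (hF 0), hx'.2, mul_one]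
      have hev : ∀ j : Fin c, eval (fun i => c' * x' i) (F j.succ) = 0 := fun j => by
        rw [eval_scale (hF j.succ), hx'.1 j, mul_zero]
      refine ⟨Sum.elim (fun i => c' * x' i) (fun _ => c'), fun w => ?_⟩
      rw [hmem]
      constructor
      · rintro ⟨hw, h2⟩
        have h3 := ((hEmem _).1 ((hKmem w).1 hw).1).1
        have h4 : ∀ i, (fun i => w (Sum.inl i)) i =
            (w (Sum.inr ()) * c'⁻¹) * (fun i => c' * x' i) i := by
          intro i
          show w (Sum.inl i) = _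
          rw [h2 i, mul_assoc, inv_mul_cancel_left₀ hc]
        have h5 := Nrm.unique h3 hn h4
        have h6 : w (Sum.inr ()) = c' := by
          field_simp at h5
          exact h5
        funext i
        rcases i with i | i
        · rw [h2 i, h6, Sum.elim_inl]
        · cases i
          rw [h6, Sum.elim_inr]
      · rintro rfl
        refine ⟨(hKmem _).2 ⟨(hEmem _).2 ⟨hn, hev, ?_⟩, ?_⟩, fun i => rfl⟩
        · show eval (fun i => c' * x' i) (F 0) ≠ 0
          rw [hev0]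
          exact pow_ne_zero _ hc
        · show c' ^ δ 0 = eval (fun i => c' * x' i) (F 0)
          rw [hev0]
    · intro w x' hz
      rw [hmem] at hz
      obtain ⟨hw, h2⟩ := hz
      have h0 := hK0 w hw
      have h3 := (hKmem w).1 hw
      have h5 := (hEmem _).1 h3.1
      have e : (fun i => w (Sum.inl i)) = fun i => w (Sum.inr ()) * x' i := funext h2
      refine ⟨hw, fun j => ?_, ?_⟩
      · have h4 := h5.2.1 j
        rw [e, eval_scale (hF j.succ)] at h4
        exact (mul_eq_zero.1 h4).resolve_left (pow_ne_zero _ h0)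
      · have h4 := h3.2
        rw [e, eval_scale (hF 0)] at h4
        have h6 : w (Sum.inr ()) ^ δ 0 * 1 = w (Sum.inr ()) ^ δ 0 * eval x' (F 0) := by
          rw [mul_one]
          exact h4
        exact (mul_left_cancel₀ (pow_ne_zero _ h0) h6).symm
  rw [← key]
  exact chi_kum hχ (hδ 0) F

end HC
end MotMono
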