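import Pool.Agent.Lib.MP_4e5fcd_ag.LF.Defs

/-!
# Nonsingular complete intersections in projective spaces: definitions

The points of `P^(N-1)` are represented by the vectors whose first non-zero coordinate is `1`.
-/

open MvPolynomial

namespace MotMono
namespace HC

/-- The set of the points of the subvariety `F 0 = F 1 = … = 0` of `P^(N-1)`: the vectors
`x ∈ ℂ^N` with `F j (x) = 0` whose first non-zero coordinate is `1`. -/
def PV {N c : ℕ} (F : Fin c → MvPolynomial (Fin N) ℂ) : Set (Fin N → ℂ) :=
  {x | (∃ i, x i = 1 ∧ ∀ j < i, x j = 0) ∧ ∀ j, eval x (F j) = 0}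

/-- `F 0, F 1, …` define a nonsingular complete intersection in `P^(N-1)`: their gradients are
linearly independent at all common zeros `x ≠ 0`. -/
def NS {N c : ℕ} (F : Fin c → MvPolynomial (Fin N) ℂ) : Prop :=
  ∀ x : Fin N → ℂ, x ≠ 0 → (∀ j, eval x (F j) = 0) → ∀ μ : Fin c → ℂ,
    (∀ l, ∑ j, μ j * eval x (pderiv l (F j)) = 0) → μ = 0

/-- Euler characteristics of complex varieties, with the additional property that `χ` has the same
value at nonsingular complete intersections of the same degrees `δ` in the same projective space. (These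
are diffeomorphic; the topological Euler characteristic has this property.) -/
structure IsEulerCharC (χ : K0 →+* ℤ) : Prop extends IsEulerCharF χ where
  ci : ∀ (N c : ℕ) (δ : Fin c → ℕ) (F G : Fin c → MvPolynomial (Fin N) ℂ), (∀ j, 0 < δ j) →
    (∀ j, (F j).IsHomogeneous (δ j)) → (∀ j, (G j).IsHomogeneous (δ j)) → NS F → NS G →
      χ (cls (PV F)) = χ (cls (PV G))

end HC
end MotMono
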