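import Mathlib

/-!
# HC-Der: derivations of the complex numbers

For a countable set `S` of complex numbers and a finite type `ι` there are complex numbers `a i` such
that there are derivations of `ℂ` which vanish on `S` and have arbitrary values at the `a i`.
-/

open Cardinal

namespace MotMono
namespace HC

open scoped TensorProduct

theorem exists_der_ext (K : Subfield ℂ) {s : Set ℂ}
    (hs : IsTranscendenceBasis K (fun x : s => (x : ℂ))) (w : s → ℂ) :
    ∃ D : Derivation K ℂ ℂ, ∀ x : s, D x = w x := by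
  classical
  letI alg : Algebra (MvPolynomial s K) ℂ :=
    (MvPolynomial.aeval (fun x : s => (x : ℂ)) : MvPolynomial s K →ₐ[K] ℂ).toRingHom.toAlgebra
  have hmap : ∀ p : MvPolynomial s K, algebraMap (MvPolynomial s K) ℂ p =
      MvPolynomial.aeval (fun x : s => (x : ℂ)) p := fun p => rfl
  haveI tower : IsScalarTower K (MvPolynomial s K) ℂ := IsScalarTower.of_algebraMap_eq fun x => by
    rw [hmap, MvPolynomial.algebraMap_eq, MvPolynomial.aeval_C]
  haveI faith : FaithfulSMul (MvPolynomial s K) ℂ :=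
    (faithfulSMul_iff_algebraMap_injective _ _).2 hs.1
  haveI algb : Algebra.IsAlgebraic (MvPolynomial s K) ℂ := by
    haveI := hs.isAlgebraic
    refine Algebra.IsAlgebraic.of_ringHom_of_comp_eq
      (hs.1.aevalEquiv.toRingEquiv : MvPolynomial s K ≃+* _) (RingHom.id ℂ) ?_ ?_ ?_
    · exact hs.1.aevalEquiv.toRingEquiv.surjective
    · exact Function.injective_id
    · ext x
      · simp [hmap]
      · simp [hmap]
  letI fr := FractionRing.liftAlgebra (MvPolynomial s K) ℂ
  haveI towerf : IsScalarTower (MvPolynomial s K) (FractionRing (MvPolynomial s K)) ℂ :=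
    FractionRing.isScalarTower_liftAlgebra _ _
  haveI algf : Algebra.IsAlgebraic (FractionRing (MvPolynomial s K)) ℂ :=
    (IsFractionRing.comap_isAlgebraic_iff (A := MvPolynomial s K)
      (K := FractionRing (MvPolynomial s K)) (C := ℂ)).1 algb
  haveI e1 : Algebra.FormallyEtale (FractionRing (MvPolynomial s K)) ℂ :=
    Algebra.FormallyEtale.of_isSeparable _ _
  haveI e2 : Algebra.FormallyEtale (MvPolynomial s K) (FractionRing (MvPolynomial s K)) :=
    Algebra.FormallyEtale.of_isLocalization (nonZeroDivisors (MvPolynomial s K))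
  haveI e3 : Algebra.FormallyEtale (MvPolynomial s K) ℂ :=
    Algebra.FormallyEtale.comp (MvPolynomial s K) (FractionRing (MvPolynomial s K)) ℂ
  set l0 : Ω[(MvPolynomial s K)⁄K] →ₗ[MvPolynomial s K] ℂ :=
    (MvPolynomial.mkDerivation K w).liftKaehlerDifferential with hl0
  set l : Ω[ℂ⁄K] →ₗ[ℂ] ℂ := (LinearMap.liftBaseChange ℂ l0).comp
    (KaehlerDifferential.tensorKaehlerEquivOfFormallyEtale K (MvPolynomial s K) ℂ).symm.toLinearMap
    with hl
  refine ⟨l.compDer (KaehlerDifferential.D K ℂ), fun x => ?_⟩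
  have h1 : (x : ℂ) = algebraMap (MvPolynomial s K) ℂ (MvPolynomial.X x) := by
    rw [hmap, MvPolynomial.aeval_X]
  show l (KaehlerDifferential.D K ℂ (x : ℂ)) = w x
  rw [h1, hl, LinearMap.comp_apply, LinearEquiv.coe_coe,
    KaehlerDifferential.tensorKaehlerEquivOfFormallyEtale_symm_D_algebraMap]
  rw [LinearMap.liftBaseChange_tmul, one_smul, hl0, Derivation.liftKaehlerDifferential_comp_D,
    MvPolynomial.mkDerivation_X]

theorem exists_der (S : Set ℂ) (hS : S.Countable) (ι : Type) [Finite ι] :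
    ∃ a : ι → ℂ, ∀ w : ι → ℂ, ∃ D : Derivation ℤ ℂ ℂ,
      (∀ c ∈ S, D c = 0) ∧ ∀ i, D (a i) = w i := by
  classical
  set K := Subfield.closure S with hK
  have hKc : #K ≤ ℵ₀ :=
    (Subfield.cardinalMk_closure_le_max S).trans (max_le hS.le_aleph0 le_rfl)
  obtain ⟨s, hs⟩ := exists_isTranscendenceBasis K ℂ
  have hs' : ℵ₀ ≤ #s := by
    by_contra h
    rw [not_le] at h
    have h1 := IsAlgClosed.cardinal_le_max_transcendence_basis' _ hs
    have h2 : #ℂ ≤ ℵ₀ := h1.trans (max_le (max_le hKc h.le) le_rfl)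
    rw [Cardinal.mk_complex] at h2
    exact absurd h2 (not_le.2 Cardinal.aleph0_lt_continuum)
  have h3 : #ι ≤ #s := (Cardinal.lt_aleph0_of_finite ι).le.trans hs'
  obtain ⟨g⟩ := (Cardinal.le_def ι s).1 h3
  refine ⟨fun i => (g i : ℂ), fun w => ?_⟩
  obtain ⟨D, hD⟩ := exists_der_ext K hs (Function.extend g w 0)
  refine ⟨D.restrictScalars ℤ, fun c hc => ?_, fun i => ?_⟩
  · have h4 : c ∈ K := Subfield.subset_closure hc
    exact D.map_algebraMap (⟨c, h4⟩ : K)
  · show D (g i : ℂ) = w i
    rw [hD, g.injective.extend_apply]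

end HC
end MotMono
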