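import Pool.Agent.Lib.MP_4e5fcd_ag.HC.Der
import Pool.Agent.Lib.MP_4e5fcd_ag.HC.Defs

/-!
# HC-Ns: nonsingular complete intersections, hyperplane sections and cyclic coverings

`NS F`: the gradients of the `F j` are linearly independent at their common zeros `x ≠ 0`.
`Flag F`: `F`, `tail F`, `tail (tail F)`, … are nonsingular in this sense. Let `D` be a derivation of
`ℂ` which vanishes at the coefficients of `F j`; then `D (F j (x)) = ∑ ∂_l F j (x) D x_l`. This proves
Bertini's theorem for the hyperplane with generic coefficients `h`.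
-/

open MvPolynomial

namespace MotMono
namespace HC

/-- all truncations `F`, `tail F`, … are nonsingular -/
def Flag {N : ℕ} : ∀ {c : ℕ}, (Fin c → MvPolynomial (Fin N) ℂ) → Prop
  | 0, _ => True
  | _ + 1, F => NS F ∧ Flag (Fin.tail F)

/-- the value of a derivation at a value of a polynomial -/
theorem der_eval {N : ℕ} (D : Derivation ℤ ℂ ℂ) (F : MvPolynomial (Fin N) ℂ)
    (hF : ∀ m, D (coeff m F) = 0) (x : Fin N → ℂ) :
    D (eval x F) = ∑ l, eval x (pderiv l F) * D (x l) := by
  classical
  have h1 : ∀ (m : Fin N →₀ ℕ) (a : ℂ), (∀ k, D (coeff k (monomial m a)) = 0) →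
      D (eval x (monomial m a)) = ∑ l, eval x (pderiv l (monomial m a)) * D (x l) := by
    intro m a
    refine induction_on_monomial (motive := fun p => (∀ k, D (coeff k p) = 0) →
      D (eval x p) = ∑ l, eval x (pderiv l p) * D (x l)) ?_ ?_ m a
    · intro b hb
      have h2 := hb 0
      rw [coeff_C, if_pos rfl] at h2
      rw [eval_C, h2]
      simp
    · intro p n hp hpX
      have h2 : ∀ k, D (coeff k p) = 0 := by
        intro k
        have h3 := hpX (k + Finsupp.single n 1)
        rwa [coeff_mul_X] at h3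
      rw [eval_mul, eval_X, D.leibniz, hp h2]
      have h3 : ∀ l, eval x (pderiv l (p * X n)) * D (x l) =
          x n * (eval x (pderiv l p) * D (x l)) + (if l = n then eval x p * D (x l) else 0) := by
        intro l
        rw [pderiv_mul, eval_add, eval_mul, eval_mul, eval_X]
        by_cases hl : l = n
        · subst hl
          rw [pderiv_X_self, if_pos rfl, map_one]
          ring
        · rw [pderiv_X_of_ne (fun h => hl h.symm), if_neg hl, map_zero]
          ring
      rw [Finset.sum_congr rfl fun l _ => h3 l, Finset.sum_add_distrib, Finset.sum_ite_eq',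
        if_pos (Finset.mem_univ n), ← Finset.mul_sum, smul_eq_mul, smul_eq_mul]
      ring
  have h2 : ∀ s : Finset (Fin N →₀ ℕ), D (eval x (∑ m ∈ s, monomial m (coeff m F))) =
      ∑ l, eval x (pderiv l (∑ m ∈ s, monomial m (coeff m F))) * D (x l) := by
    intro s
    induction s using Finset.induction_on with
    | empty => simp
    | insert m s hm ih =>
      rw [Finset.sum_insert hm, eval_add, D.map_add, ih, h1 m (coeff m F) (fun k => by
        rw [coeff_monomial]
        by_cases hk : m = k
        · rw [if_pos hk]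
          exact hF m
        · rw [if_neg hk, D.map_zero]), ← Finset.sum_add_distrib]
      refine Finset.sum_congr rfl fun l _ => ?_
      rw [map_add, eval_add]
      ring
  have h3 := h2 F.support
  rw [← F.as_sum] at h3
  exact h3

/-! ### Hyperplane sections -/

/-- the restriction to the hyperplane `x_N = ∑ h_l x_l` -/
noncomputable def sub {N : ℕ} (h : Fin N → ℂ) :
    MvPolynomial (Fin (N + 1)) ℂ →ₐ[ℂ] MvPolynomial (Fin N) ℂ :=
  aeval (Fin.snoc (α := fun _ => MvPolynomial (Fin N) ℂ) (fun l => X l) (∑ l, C (h l) * X l))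

/-- the point of the hyperplane over `x` -/
def pt {N : ℕ} (h : Fin N → ℂ) (x : Fin N → ℂ) : Fin (N + 1) → ℂ :=
  Fin.snoc (α := fun _ => ℂ) x (∑ l, h l * x l)

theorem pt_cast {N : ℕ} (h : Fin N → ℂ) (x : Fin N → ℂ) (l : Fin N) :
    pt h x l.castSucc = x l := by
  unfold pt
  rw [Fin.snoc_castSucc]

theorem pt_last {N : ℕ} (h : Fin N → ℂ) (x : Fin N → ℂ) :
    pt h x (Fin.last N) = ∑ l, h l * x l := by
  unfold pt
  rw [Fin.snoc_last]

theorem sub_X_cast {N : ℕ} (h : Fin N → ℂ) (l : Fin N) : sub h (X l.castSucc) = X l := by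
  unfold sub
  rw [aeval_X, Fin.snoc_castSucc]

theorem sub_X_last {N : ℕ} (h : Fin N → ℂ) :
    sub h (X (Fin.last N)) = ∑ l, C (h l) * X l := by
  unfold sub
  rw [aeval_X, Fin.snoc_last]

theorem eval_sub {N : ℕ} (h : Fin N → ℂ) (x : Fin N → ℂ) (p : MvPolynomial (Fin (N + 1)) ℂ) :
    eval x (sub h p) = eval (pt h x) p := by
  induction p using MvPolynomial.induction_on with
  | C a =>
    have : sub h (C a) = C a := by
      unfold sub
      rw [aeval_C]
      rfl
    rw [this, eval_C, eval_C]
  | add p q hp hq => rw [map_add, eval_add, eval_add, hp, hq]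
  | mul_X p n hp =>
    rw [map_mul, eval_mul, eval_mul, hp, eval_X]
    congr 1
    refine Fin.lastCases ?_ (fun l => ?_) n
    · rw [sub_X_last, pt_last]
      simp
    · rw [sub_X_cast, pt_cast, eval_X]

theorem pderiv_sub {N : ℕ} (h : Fin N → ℂ) (x : Fin N → ℂ) (l : Fin N)
    (p : MvPolynomial (Fin (N + 1)) ℂ) : eval x (pderiv l (sub h p)) =
      eval (pt h x) (pderiv l.castSucc p) + h l * eval (pt h x) (pderiv (Fin.last N) p) := by
  classical
  induction p using MvPolynomial.induction_on with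
  | C a =>
    have : sub h (C a) = C a := by
      unfold sub
      rw [aeval_C]
      rfl
    rw [this, pderiv_C, pderiv_C, pderiv_C]
    simp
  | add p q hp hq =>
    simp only [map_add, hp, hq]
    ring
  | mul_X p n hp =>
    rw [map_mul, pderiv_mul, eval_add, eval_mul, eval_mul, hp, eval_sub, eval_sub, pderiv_mul,
      eval_add, eval_mul, eval_mul, pderiv_mul, eval_add, eval_mul, eval_mul]
    have h1 : eval x (pderiv l (sub h (X n))) = eval (pt h x) (pderiv l.castSucc (X n)) +
        h l * eval (pt h x) (pderiv (Fin.last N) (X n)) := by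
      refine Fin.lastCases ?_ (fun k => ?_) n
      · rw [sub_X_last, pderiv_X_self, pderiv_X_of_ne (Fin.castSucc_lt_last l).ne', map_sum,
          map_sum, Finset.sum_eq_single l]
        · rw [pderiv_mul, pderiv_C, pderiv_X_self]
          simp
        · intro k _ hk
          rw [pderiv_mul, pderiv_C, pderiv_X_of_ne hk]
          simp
        · intro hl
          exact absurd (Finset.mem_univ _) hl
      · rw [sub_X_cast, pderiv_X_of_ne (Fin.castSucc_lt_last k).ne]
        by_cases hk : k = l
        · subst hk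
          rw [pderiv_X_self, pderiv_X_self]
          simp
        · rw [pderiv_X_of_ne hk, pderiv_X_of_ne (fun h2 => hk (Fin.castSucc_injective _ h2))]
          simp
    rw [h1]
    ring

theorem homog_sub {N d : ℕ} (h : Fin N → ℂ) {p : MvPolynomial (Fin (N + 1)) ℂ}
    (hp : p.IsHomogeneous d) : (sub h p).IsHomogeneous d := by
  have h1 := hp.aeval (Fin.snoc (α := fun _ => MvPolynomial (Fin N) ℂ) (fun l => X l)
    (∑ l, C (h l) * X l)) (n := 1) (fun i => by
      refine Fin.lastCases ?_ (fun k => ?_) i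
      · rw [Fin.snoc_last]
        refine IsHomogeneous.sum _ _ _ fun l _ => ?_
        have h2 := (isHomogeneous_C (Fin N) (h l)).mul (isHomogeneous_X ℂ l)
        rwa [zero_add] at h2
      · rw [Fin.snoc_castSucc]
        exact isHomogeneous_X ℂ k)
  rwa [one_mul] at h1

/-- Bertini's theorem for a generic hyperplane -/
theorem ns_sub {N c : ℕ} {F : Fin c → MvPolynomial (Fin (N + 1)) ℂ} (hF : NS F)
    {h : Fin N → ℂ} (hh : ∀ w : Fin N → ℂ, ∃ D : Derivation ℤ ℂ ℂ,
      (∀ j m, D (coeff m (F j)) = 0) ∧ ∀ l, D (h l) = w l) : NS fun j => sub h (F j) := by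
  classical
  intro x hx hz μ hμ
  have hz' : ∀ j, eval (pt h x) (F j) = 0 := fun j => by rw [← eval_sub]; exact hz j
  have hx' : pt h x ≠ 0 := by
    intro h0
    apply hx
    funext l
    rw [← pt_cast h x l, h0]
    rfl
  set A : Fin (N + 1) → ℂ := fun l => ∑ j, μ j * eval (pt h x) (pderiv l (F j)) with hA
  have h1 : ∀ l : Fin N, A l.castSucc + h l * A (Fin.last N) = 0 := by
    intro l
    rw [← hμ l, hA]
    simp only [Finset.mul_sum]
    rw [← Finset.sum_add_distrib]
    refine Finset.sum_congr rfl fun j _ => ?_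
    rw [pderiv_sub]
    ring
  by_cases h2 : A (Fin.last N) = 0
  · refine hF (pt h x) hx' hz' μ fun l => ?_
    refine Fin.lastCases ?_ (fun k => ?_) l
    · exact h2
    · have h3 := h1 k
      rw [h2, mul_zero, add_zero] at h3
      exact h3
  · exfalso
    apply hx
    funext k
    obtain ⟨D, hD1, hD2⟩ := hh (fun l => if l = k then 1 else 0)
    have h3 : ∀ j, ∑ l, eval (pt h x) (pderiv l (F j)) * D (pt h x l) = 0 := by
      intro j
      rw [← der_eval D (F j) (hD1 j), hz' j, D.map_zero]
    have h4 : ∑ l, A l * D (pt h x l) = 0 := by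
      have h5 : ∑ l, A l * D (pt h x l) =
          ∑ j, μ j * ∑ l, eval (pt h x) (pderiv l (F j)) * D (pt h x l) := by
        simp only [hA, Finset.sum_mul, Finset.mul_sum]
        rw [Finset.sum_comm]
        exact Finset.sum_congr rfl fun j _ => Finset.sum_congr rfl fun l _ => by ring
      rw [h5]
      exact Finset.sum_eq_zero fun j _ => by rw [h3 j, mul_zero]
    rw [Fin.sum_univ_castSucc, pt_last] at h4
    have h6 : D (∑ l, h l * x l) = x k + ∑ l, h l * D (x l) := by
      rw [map_sum]
      have h7 : ∀ l, D (h l * x l) = h l * D (x l) + (if l = k then x l else 0) := by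
        intro l
        rw [D.leibniz, hD2, smul_eq_mul, smul_eq_mul]
        by_cases hl : l = k
        · rw [if_pos hl, if_pos hl, mul_one]
        · rw [if_neg hl, if_neg hl, mul_zero]
      rw [Finset.sum_congr rfl fun l _ => h7 l, Finset.sum_add_distrib, Finset.sum_ite_eq',
        if_pos (Finset.mem_univ k)]
      ring
    rw [h6, mul_add, Finset.mul_sum] at h4
    have h8 : ∑ l : Fin N, A l.castSucc * D (pt h x l.castSucc) =
        -∑ l, A (Fin.last N) * (h l * D (x l)) := by
      rw [← Finset.sum_neg_distrib]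
      refine Finset.sum_congr rfl fun l _ => ?_
      rw [pt_cast]
      have h9 := h1 l
      have h10 : A l.castSucc = -(h l * A (Fin.last N)) := by linear_combination h9
      rw [h10]
      ring
    rw [h8] at h4
    have h11 : A (Fin.last N) * x k = 0 := by linear_combination h4
    exact (mul_eq_zero.1 h11).resolve_left h2

theorem flag_sub {N : ℕ} {h : Fin N → ℂ} : ∀ {c : ℕ} {F : Fin c → MvPolynomial (Fin (N + 1)) ℂ},
    Flag F → (∀ w : Fin N → ℂ, ∃ D : Derivation ℤ ℂ ℂ,
      (∀ j m, D (coeff m (F j)) = 0) ∧ ∀ l, D (h l) = w l) → Flag fun j => sub h (F j)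
  | 0, _, _, _ => trivial
  | c + 1, F, hF, hh => by
    refine ⟨ns_sub hF.1 hh, ?_⟩
    have h1 := flag_sub (F := Fin.tail F) hF.2 (fun w => by
      obtain ⟨D, h2, h3⟩ := hh w
      exact ⟨D, fun j m => h2 j.succ m, h3⟩)
    exact h1

/-- a generic hyperplane exists -/
theorem exists_hyp {N c : ℕ} (F : Fin c → MvPolynomial (Fin (N + 1)) ℂ) :
    ∃ h : Fin N → ℂ, ∀ w : Fin N → ℂ, ∃ D : Derivation ℤ ℂ ℂ,
      (∀ j m, D (coeff m (F j)) = 0) ∧ ∀ l, D (h l) = w l := by
  obtain ⟨h, hh⟩ := exists_der (Set.range fun p : Fin c × (Fin (N + 1) →₀ ℕ) => coeff p.2 (F p.1))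
    (Set.countable_range _) (Fin N)
  refine ⟨h, fun w => ?_⟩
  obtain ⟨D, h1, h2⟩ := hh w
  exact ⟨D, fun j m => h1 _ ⟨(j, m), rfl⟩, h2⟩

/-! ### Cyclic coverings -/

/-- a polynomial in one more variable -/
noncomputable def up {N : ℕ} : MvPolynomial (Fin N) ℂ →ₐ[ℂ] MvPolynomial (Fin (N + 1)) ℂ :=
  rename Fin.castSucc

theorem eval_up {N : ℕ} (z : Fin (N + 1) → ℂ) (p : MvPolynomial (Fin N) ℂ) :
    eval z (up p) = eval (fun l => z l.castSucc) p := by
  unfold up
  rw [eval_rename]
  rfl

theorem pderiv_up {N : ℕ} (l : Fin N) (p : MvPolynomial (Fin N) ℂ) :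
    pderiv l.castSucc (up p) = up (pderiv l p) := by
  unfold up
  exact pderiv_rename (Fin.castSucc_injective N) l p

theorem pderiv_last_up {N : ℕ} (p : MvPolynomial (Fin N) ℂ) :
    pderiv (Fin.last N) (up p) = 0 := by
  classical
  refine pderiv_eq_zero_of_notMem_vars fun h => ?_
  unfold up at h
  have h1 := vars_rename Fin.castSucc p h
  rw [Finset.mem_image] at h1
  obtain ⟨l, _, hl⟩ := h1
  exact (Fin.castSucc_lt_last l).ne hl

/-- the cyclic covering of degree `e` branched along the zero set of `F 0` -/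
noncomputable def cyc {N c : ℕ} (e : ℕ) (F : Fin (c + 1) → MvPolynomial (Fin N) ℂ) :
    Fin (c + 1) → MvPolynomial (Fin (N + 1)) ℂ :=
  Fin.cons (up (F 0) - X (Fin.last N) ^ e) fun j => up (F j.succ)

theorem cyc_zero {N c : ℕ} (e : ℕ) (F : Fin (c + 1) → MvPolynomial (Fin N) ℂ) :
    cyc e F 0 = up (F 0) - X (Fin.last N) ^ e := rfl

theorem cyc_succ {N c : ℕ} (e : ℕ) (F : Fin (c + 1) → MvPolynomial (Fin N) ℂ) (j : Fin c) :
    cyc e F j.succ = up (F j.succ) := rfl

theorem homog_cyc {N c : ℕ} {F : Fin (c + 1) → MvPolynomial (Fin N) ℂ} {δ : Fin (c + 1) → ℕ}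
    (hF : ∀ j, (F j).IsHomogeneous (δ j)) (j : Fin (c + 1)) :
    (cyc (δ 0) F j).IsHomogeneous (δ j) := by
  refine Fin.cases ?_ (fun j => ?_) j
  · rw [cyc_zero]
    have h1 : (up (F 0)).IsHomogeneous (δ 0) := (hF 0).rename_isHomogeneous
    have h2 : (X (Fin.last N) ^ δ 0 : MvPolynomial (Fin (N + 1)) ℂ).IsHomogeneous (δ 0) :=
      isHomogeneous_X_pow (Fin.last N) (δ 0)
    exact h1.sub h2
  · rw [cyc_succ]
    exact (hF j.succ).rename_isHomogeneous

theorem eval_zero_homog {N d : ℕ} (hd : 0 < d) {p : MvPolynomial (Fin N) ℂ}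
    (hp : p.IsHomogeneous d) {x : Fin N → ℂ} (hx : x = 0) : eval x p = 0 := by
  subst hx
  have h1 : coeff 0 p = 0 := by
    by_contra h
    have h2 := hp h
    rw [map_zero] at h2
    exact hd.ne h2
  rw [← constantCoeff_eq] at h1
  rw [← h1, eval_zero]

theorem ns_cyc {N c : ℕ} {F : Fin (c + 1) → MvPolynomial (Fin N) ℂ} {δ : Fin (c + 1) → ℕ}
    (hδ : ∀ j, 0 < δ j) (hF : ∀ j, (F j).IsHomogeneous (δ j)) (h1 : NS F)
    (h2 : NS (Fin.tail F)) : NS (cyc (δ 0) F) := by
  classical
  intro z hz0 hz μ hμ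
  set x : Fin N → ℂ := fun l => z l.castSucc with hx
  have hz1 : eval x (F 0) = z (Fin.last N) ^ δ 0 := by
    have h3 := hz 0
    rw [cyc_zero, map_sub, eval_up, eval_pow, eval_X] at h3
    exact sub_eq_zero.1 h3
  have hz2 : ∀ j : Fin c, eval x (F j.succ) = 0 := by
    intro j
    have h3 := hz j.succ
    rwa [cyc_succ, eval_up] at h3
  have hx0 : x ≠ 0 := by
    intro h0
    apply hz0
    have h3 : z (Fin.last N) = 0 := by
      have h4 := eval_zero_homog (hδ 0) (hF 0) h0
      rw [hz1] at h4
      exact (pow_eq_zero_iff (hδ 0).ne').1 h4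
    funext l
    refine Fin.lastCases ?_ (fun k => ?_) l
    · exact h3
    · exact congrFun h0 k
  have hder : ∀ l : Fin N, ∑ j, μ j * eval x (pderiv l (F j)) = 0 := by
    intro l
    rw [← hμ l.castSucc, Fin.sum_univ_succ, Fin.sum_univ_succ]
    congr 1
    · rw [cyc_zero, map_sub, pderiv_up, map_sub (eval z), eval_up, pderiv_pow,
        pderiv_X_of_ne (Fin.castSucc_lt_last l).ne']
      simp [hx]
    · refine Finset.sum_congr rfl fun j _ => ?_
      rw [cyc_succ, pderiv_up, eval_up]
  have hlast : μ 0 * (δ 0 * z (Fin.last N) ^ (δ 0 - 1)) = 0 := by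
    have h3 := hμ (Fin.last N)
    rw [Fin.sum_univ_succ] at h3
    have h4 : ∑ j : Fin c, μ j.succ * eval z (pderiv (Fin.last N) (cyc (δ 0) F j.succ)) = 0 := by
      refine Finset.sum_eq_zero fun j _ => ?_
      rw [cyc_succ, pderiv_last_up, map_zero, mul_zero]
    rw [h4, add_zero, cyc_zero, map_sub, pderiv_last_up, pderiv_pow, pderiv_X_self] at h3
    simp only [zero_sub, map_neg, mul_one, map_mul, map_natCast, map_pow, eval_X, mul_neg,
      neg_eq_zero] at h3
    exact h3
  by_cases hw : z (Fin.last N) = 0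
  · have h3 : ∀ j, eval x (F j) = 0 := by
      intro j
      refine Fin.cases ?_ hz2 j
      rw [hz1, hw, zero_pow (hδ 0).ne']
    exact h1 x hx0 h3 μ hder
  · have h3 : μ 0 = 0 := by
      rcases mul_eq_zero.1 hlast with h4 | h4
      · exact h4
      · exfalso
        rcases mul_eq_zero.1 h4 with h5 | h5
        · exact (hδ 0).ne' (Nat.cast_eq_zero.1 h5)
        · exact pow_ne_zero _ hw h5
    have h4 := h2 x hx0 hz2 (fun j => μ j.succ) (fun l => by
      have h5 := hder l
      rw [Fin.sum_univ_succ, h3, zero_mul, zero_add] at h5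
      exact h5)
    funext j
    refine Fin.cases h3 (fun k => ?_) j
    exact congrFun h4 k

end HC
end MotMono
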